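import Mathlib

/-!
# Building sets, face classes of nestohedra and their generating polynomial
-/

namespace Pool.Agent.KS6_69.Nesto

open Finset Polynomial

variable {m : ℕ}

/-- `B` is closed under unions of intersecting members, has nonempty members and contains the
singletons of `U`. -/
structure IsB (U : Finset (Fin m)) (B : Finset (Finset (Fin m))) : Prop where
  nonempty : ∀ I ∈ B, I.Nonempty
  union : ∀ I ∈ B, ∀ J ∈ B, (I ∩ J).Nonempty → I ∪ J ∈ B
  single : ∀ i ∈ U, ({i} : Finset (Fin m)) ∈ B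

/-- The union of all members of `B` inside `J` containing `i`. -/
def comp (B : Finset (Finset (Fin m))) (J : Finset (Fin m)) (i : Fin m) : Finset (Fin m) :=
  (B.filter (fun K => K ⊆ J ∧ i ∈ K)).sup id

variable {U J K S : Finset (Fin m)} {B : Finset (Finset (Fin m))} {i j x : Fin m}

lemma mem_comp : x ∈ comp B J i ↔ ∃ K ∈ B, K ⊆ J ∧ i ∈ K ∧ x ∈ K := by
  unfold comp
  rw [Finset.mem_sup]
  simp only [mem_filter, id]
  constructor
  · rintro ⟨K, ⟨h1, h2, h3⟩, h4⟩
    exact ⟨K, h1, h2, h3, h4⟩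
  · rintro ⟨K, h1, h2, h3, h4⟩
    exact ⟨K, ⟨h1, h2, h3⟩, h4⟩

lemma comp_subset : comp B J i ⊆ J := by
  intro x hx
  obtain ⟨K, _, h2, _, h4⟩ := mem_comp.1 hx
  exact h2 h4

lemma subset_comp (hK : K ∈ B) (hKJ : K ⊆ J) (hi : i ∈ K) : K ⊆ comp B J i :=
  fun _ hx => mem_comp.2 ⟨K, hK, hKJ, hi, hx⟩

lemma sup_mem (h : IsB U B) (T : Finset (Finset (Fin m))) (hT : ∀ K ∈ T, K ∈ B ∧ i ∈ K)
    (hne : T.Nonempty) : T.sup id ∈ B ∧ i ∈ T.sup id := by
  induction hne using Finset.Nonempty.cons_induction with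
  | singleton a => simpa using hT a (by simp)
  | cons a s ha hs ih =>
    have h1 := ih (fun K hK => hT K (by simp [hK]))
    have h2 := hT a (by simp)
    rw [Finset.sup_cons]
    refine ⟨h.union _ h2.1 _ h1.1 ⟨i, ?_⟩, ?_⟩
    · exact mem_inter.2 ⟨h2.2, h1.2⟩
    · exact mem_union.2 (Or.inl h2.2)

lemma comp_mem (h : IsB U B) (hJ : J ⊆ U) (hi : i ∈ J) : comp B J i ∈ B ∧ i ∈ comp B J i := by
  apply sup_mem h
  · intro K hK
    simp only [mem_filter] at hK
    exact ⟨hK.1, hK.2.2⟩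
  · refine ⟨{i}, ?_⟩
    simp only [mem_filter, mem_singleton, and_true, singleton_subset_iff]
    exact ⟨h.single i (hJ hi), hi⟩

lemma comp_eq (h : IsB U B) (hJ : J ⊆ U) (hi : i ∈ J) (hj : j ∈ comp B J i) :
    comp B J j = comp B J i := by
  have h1 := comp_mem h hJ hi
  have hjJ : j ∈ J := comp_subset hj
  have h2 := comp_mem h hJ hjJ
  have h3 : comp B J i ⊆ comp B J j := subset_comp h1.1 comp_subset hj
  apply Subset.antisymm
  · exact subset_comp h2.1 comp_subset (h3 h1.2)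
  · exact h3

lemma comp_congr {B' : Finset (Finset (Fin m))} {J' : Finset (Fin m)}
    (h : ∀ K, i ∈ K → ((K ∈ B ∧ K ⊆ J) ↔ (K ∈ B' ∧ K ⊆ J'))) : comp B J i = comp B' J' i := by
  ext x
  rw [mem_comp, mem_comp]
  constructor
  · rintro ⟨K, h1, h2, h3, h4⟩
    obtain ⟨h5, h6⟩ := (h K h3).1 ⟨h1, h2⟩
    exact ⟨K, h5, h6, h3, h4⟩
  · rintro ⟨K, h1, h2, h3, h4⟩
    obtain ⟨h5, h6⟩ := (h K h3).2 ⟨h1, h2⟩
    exact ⟨K, h5, h6, h3, h4⟩

/-- `J` is the disjoint union of `J₁` and `J₂` and no member of `B` inside `J` meets both. -/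
structure Sep (B : Finset (Finset (Fin m))) (J J₁ J₂ : Finset (Fin m)) : Prop where
  union : J = J₁ ∪ J₂
  disj : Disjoint J₁ J₂
  sep : ∀ K ∈ B, K ⊆ J → K ⊆ J₁ ∨ K ⊆ J₂

lemma Sep.symm {J₁ J₂ : Finset (Fin m)} (h : Sep B J J₁ J₂) : Sep B J J₂ J₁ :=
  ⟨by rw [h.union, union_comm], h.disj.symm, fun K h1 h2 => (h.sep K h1 h2).symm⟩

lemma Sep.comp_eq {J₁ J₂ : Finset (Fin m)} (h : Sep B J J₁ J₂) (hi : i ∈ J₁) :
    comp B J i = comp B J₁ i := by
  apply comp_congr
  intro K hK
  constructor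
  · rintro ⟨h1, h2⟩
    refine ⟨h1, ?_⟩
    rcases h.sep K h1 h2 with h3 | h3
    · exact h3
    · exact absurd (h3 hK) (Finset.disjoint_left.1 h.disj hi)
  · rintro ⟨h1, h2⟩
    exact ⟨h1, h2.trans (by rw [h.union]; exact subset_union_left)⟩

lemma Sep.mono {J₁ J₂ J₁' J₂' J' : Finset (Fin m)} (h : Sep B J J₁ J₂) (hJ : J' = J₁' ∪ J₂')
    (h1 : J₁' ⊆ J₁) (h2 : J₂' ⊆ J₂) : Sep B J' J₁' J₂' := by
  have hd : Disjoint J₁' J₂' := Finset.disjoint_of_subset_left h1
    (Finset.disjoint_of_subset_right h2 h.disj)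
  refine ⟨hJ, hd, ?_⟩
  intro K hK hKJ
  have hKJ2 : K ⊆ J := by
    rw [h.union]
    rw [hJ] at hKJ
    exact hKJ.trans (union_subset_union h1 h2)
  rcases h.sep K hK hKJ2 with h3 | h3
  · left
    intro x hx
    rcases mem_union.1 (hJ ▸ hKJ hx) with h4 | h4
    · exact h4
    · exact absurd (h2 h4) (Finset.disjoint_left.1 h.disj (h3 hx))
  · right
    intro x hx
    rcases mem_union.1 (hJ ▸ hKJ hx) with h4 | h4
    · exact absurd (h3 hx) (Finset.disjoint_left.1 h.disj (h1 h4))
    · exact h4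

/-- A component splits off. -/
lemma sep_comp (h : IsB U B) (hJ : J ⊆ U) (hi : i ∈ J) :
    Sep B J (comp B J i) (J \ comp B J i) := by
  refine ⟨?_, disjoint_sdiff, ?_⟩
  · exact (union_sdiff_of_subset comp_subset).symm
  · intro K hK hKJ
    by_cases hm : (K ∩ comp B J i).Nonempty
    · left
      obtain ⟨x, hx⟩ := hm
      rw [mem_inter] at hx
      rw [← comp_eq h hJ hi hx.2]
      exact subset_comp hK hKJ hx.1
    · right
      intro x hx
      rw [mem_sdiff]
      refine ⟨hKJ hx, fun hx2 => hm ⟨x, mem_inter.2 ⟨hx, hx2⟩⟩⟩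

/-- The number of connected components of `B` restricted to `J`. -/
def cc (B : Finset (Finset (Fin m))) (J : Finset (Fin m)) : ℕ := (J.image (comp B J)).card

lemma cc_empty : cc B ∅ = 0 := by simp [cc]

lemma cc_sep (h : IsB U B) (hJ : J ⊆ U) {J₁ J₂ : Finset (Fin m)} (hs : Sep B J J₁ J₂) :
    cc B J = cc B J₁ + cc B J₂ := by
  have h1 : J.image (comp B J) = J₁.image (comp B J₁) ∪ J₂.image (comp B J₂) := by
    conv_lhs => rw [hs.union]
    rw [image_union, ← hs.union]
    congr 1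
    · apply image_congr
      intro i hi
      exact hs.comp_eq hi
    · apply image_congr
      intro i hi
      exact hs.symm.comp_eq hi
  have hJ1 : J₁ ⊆ J := by rw [hs.union]; exact subset_union_left
  have hJ2 : J₂ ⊆ J := by rw [hs.union]; exact subset_union_right
  unfold cc
  rw [h1, card_union_of_disjoint]
  rw [Finset.disjoint_left]
  intro K hK1 hK2
  rw [mem_image] at hK1 hK2
  obtain ⟨a, ha, rfl⟩ := hK1
  obtain ⟨b, hb, hb2⟩ := hK2
  have h3 := (comp_mem h (hJ1.trans hJ) ha).2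
  have h4 : a ∈ J₂ := by
    rw [← hb2] at h3
    exact comp_subset h3
  exact absurd h4 (Finset.disjoint_left.1 hs.disj ha)

lemma comp_self_of_mem (hS : S ∈ B) (hi : i ∈ S) : comp B S i = S :=
  Subset.antisymm comp_subset (subset_comp hS Subset.rfl hi)

lemma cc_of_mem (h : IsB U B) (hS : S ∈ B) : cc B S = 1 := by
  unfold cc
  rw [card_eq_one]
  refine ⟨S, ?_⟩
  obtain ⟨a, ha⟩ := h.nonempty S hS
  ext K
  rw [mem_image, mem_singleton]
  constructor
  · rintro ⟨i, hi, rfl⟩
    exact comp_self_of_mem hS hi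
  · rintro rfl
    exact ⟨a, ha, comp_self_of_mem hS ha⟩

lemma cc_le : cc B J ≤ J.card := card_image_le

lemma cc_pos (hJ : J.Nonempty) : 0 < cc B J := by
  unfold cc
  rw [card_pos]
  exact hJ.image _

lemma cc_congr {B' : Finset (Finset (Fin m))} (h : ∀ K ⊆ J, K ∈ B ↔ K ∈ B') :
    cc B J = cc B' J := by
  unfold cc
  congr 1
  apply image_congr
  intro i _
  apply comp_congr
  intro K _
  constructor
  · rintro ⟨h1, h2⟩
    exact ⟨(h K h2).1 h1, h2⟩
  · rintro ⟨h1, h2⟩
    exact ⟨(h K h2).2 h1, h2⟩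

/-- For a linear functional `c`, the map sending `i ∈ J` to the component of `i` in
`{j ∈ J : c j ≤ c i}`. -/
noncomputable def Mc (B : Finset (Finset (Fin m))) (J : Finset (Fin m)) (c : Fin m → ℝ) :
    Fin m → Finset (Fin m) :=
  fun i => if i ∈ J then comp B (J.filter (fun j => c j ≤ c i)) i else ∅

/-- The face classes. -/
noncomputable def Phi (B : Finset (Finset (Fin m))) (J : Finset (Fin m)) :
    Finset (Fin m → Finset (Fin m)) := (Set.toFinite (Set.range (Mc B J))).toFinset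

lemma mem_Phi {M : Fin m → Finset (Fin m)} : M ∈ Phi B J ↔ ∃ c, Mc B J c = M := by
  unfold Phi
  rw [Set.Finite.mem_toFinset, Set.mem_range]

/-- The `h`-polynomial: `∑ (X-1)^(dim)` over the face classes. -/
noncomputable def F (B : Finset (Finset (Fin m))) (J : Finset (Fin m)) : ℝ[X] :=
  ∑ M ∈ Phi B J, (X - 1) ^ (J.card - (J.image M).card)

lemma F_empty : F B ∅ = 1 := by
  have h : Phi B (∅ : Finset (Fin m)) = {fun _ => ∅} := by
    ext M
    rw [mem_Phi, mem_singleton]
    constructor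
    · rintro ⟨c, rfl⟩
      funext i
      simp [Mc]
    · rintro rfl
      refine ⟨fun _ => 0, ?_⟩
      funext i
      simp [Mc]
  unfold F
  rw [h, sum_singleton]
  simp

lemma Mc_congr {B' : Finset (Finset (Fin m))} (h : ∀ K ⊆ J, K ∈ B ↔ K ∈ B') :
    Mc B J = Mc B' J := by
  funext c i
  unfold Mc
  split_ifs with hi
  · apply comp_congr
    intro K _
    constructor
    · rintro ⟨h1, h2⟩
      exact ⟨(h K (h2.trans (filter_subset _ _))).1 h1, h2⟩
    · rintro ⟨h1, h2⟩
      exact ⟨(h K (h2.trans (filter_subset _ _))).2 h1, h2⟩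
  · rfl

lemma F_congr {B' : Finset (Finset (Fin m))} (h : ∀ K ⊆ J, K ∈ B ↔ K ∈ B') :
    F B J = F B' J := by
  unfold F Phi
  have := Mc_congr h
  simp only [this]

/-- restriction of a face class. -/
def res (J : Finset (Fin m)) (M : Fin m → Finset (Fin m)) : Fin m → Finset (Fin m) :=
  fun i => if i ∈ J then M i else ∅

lemma image_res {M : Fin m → Finset (Fin m)} : J.image (res J M) = J.image M := by
  apply image_congr
  intro i hi
  simp only [res]
  rw [if_pos (mem_coe.1 hi)]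

/-- gluing of two face classes. -/
def glue (J : Finset (Fin m)) (M N : Fin m → Finset (Fin m)) : Fin m → Finset (Fin m) :=
  fun i => if i ∈ J then M i else N i

lemma Mc_mem (h : IsB U B) (hJ : J ⊆ U) (c : Fin m → ℝ) (hi : i ∈ J) :
    i ∈ Mc B J c i ∧ Mc B J c i ∈ B ∧ Mc B J c i ⊆ J := by
  unfold Mc
  rw [if_pos hi]
  have h1 := comp_mem h (J := J.filter (fun j => c j ≤ c i)) ((filter_subset _ _).trans hJ)
    (i := i) (by simp [hi])
  exact ⟨h1.2, h1.1, comp_subset.trans (filter_subset _ _)⟩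

lemma Sep.Mc_eq {J₁ J₂ : Finset (Fin m)} (hs : Sep B J J₁ J₂) (c : Fin m → ℝ) (hi : i ∈ J₁) :
    Mc B J c i = Mc B J₁ c i := by
  have hiJ : i ∈ J := by rw [hs.union]; exact mem_union_left _ hi
  unfold Mc
  rw [if_pos hi, if_pos hiJ]
  have hs2 : Sep B (J.filter (fun j => c j ≤ c i)) (J₁.filter (fun j => c j ≤ c i))
      (J₂.filter (fun j => c j ≤ c i)) := by
    apply hs.mono
    · rw [hs.union, filter_union]
    · exact filter_subset _ _
    · exact filter_subset _ _
  exact hs2.comp_eq (by simp [hi])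

lemma Mc_congr_c {c c' : Fin m → ℝ} (h : ∀ i ∈ J, c i = c' i) : Mc B J c = Mc B J c' := by
  funext i
  unfold Mc
  split_ifs with hi
  · congr 1
    apply filter_congr
    intro j hj
    rw [h i hi, h j hj]
  · rfl

lemma F_sep (h : IsB U B) (hJ : J ⊆ U) {J₁ J₂ : Finset (Fin m)} (hs : Sep B J J₁ J₂) :
    F B J = F B J₁ * F B J₂ := by
  have hJ1 : J₁ ⊆ J := by rw [hs.union]; exact subset_union_left
  have hJ2 : J₂ ⊆ J := by rw [hs.union]; exact subset_union_right
  unfold F
  rw [sum_mul_sum, ← sum_product']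
  apply sum_nbij' (fun M => (res J₁ M, res J₂ M)) (fun p => glue J₁ p.1 p.2)
  · intro M hM
    rw [mem_Phi] at hM
    obtain ⟨c, rfl⟩ := hM
    rw [mem_product, mem_Phi, mem_Phi]
    refine ⟨⟨c, ?_⟩, ⟨c, ?_⟩⟩
    · funext i
      simp only [res]
      split_ifs with hi
      · rw [hs.Mc_eq c hi]
      · unfold Mc; rw [if_neg hi]
    · funext i
      simp only [res]
      split_ifs with hi
      · rw [hs.symm.Mc_eq c hi]
      · unfold Mc; rw [if_neg hi]
  · rintro ⟨M, N⟩ hMN
    rw [mem_product, mem_Phi, mem_Phi] at hMN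
    obtain ⟨⟨c, hc⟩, ⟨d, hd⟩⟩ := hMN
    simp only at hc hd
    subst hc hd
    rw [mem_Phi]
    refine ⟨fun i => if i ∈ J₁ then c i else d i, ?_⟩
    funext i
    simp only [glue]
    split_ifs with hi
    · rw [hs.Mc_eq _ hi]
      rw [Mc_congr_c (c' := c)]
      intro i hi
      rw [if_pos hi]
    · by_cases hi2 : i ∈ J₂
      · rw [hs.symm.Mc_eq _ hi2]
        rw [Mc_congr_c (c' := d)]
        intro i hi
        rw [if_neg]
        exact Finset.disjoint_right.1 hs.disj hi
      · unfold Mc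
        rw [if_neg, if_neg hi2]
        rw [hs.union, mem_union]
        tauto
  · intro M hM
    rw [mem_Phi] at hM
    obtain ⟨c, rfl⟩ := hM
    funext i
    simp only [glue, res]
    split_ifs with hi hi2
    · rfl
    · rfl
    · unfold Mc
      rw [if_neg]
      rw [hs.union, mem_union]
      tauto
  · rintro ⟨M, N⟩ hMN
    rw [mem_product, mem_Phi, mem_Phi] at hMN
    obtain ⟨⟨c, hc⟩, ⟨d, hd⟩⟩ := hMN
    simp only at hc hd
    subst hc hd
    ext1
    · funext i
      simp only [glue, res]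
      split_ifs with hi
      · rfl
      · unfold Mc; rw [if_neg hi]
    · funext i
      simp only [glue, res]
      split_ifs with hi hi2
      · exact absurd hi2 (Finset.disjoint_right.1 hs.disj hi)
      · rfl
      · unfold Mc; rw [if_neg hi]
  · intro M hM
    rw [mem_Phi] at hM
    obtain ⟨c, rfl⟩ := hM
    simp only
    rw [← pow_add]
    congr 1
    have e1 : J₁.image (res J₁ (Mc B J c)) = J₁.image (Mc B J c) := image_res
    have e2 : J₂.image (res J₂ (Mc B J c)) = J₂.image (Mc B J c) := image_res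
    rw [e1, e2]
    have e3 : J.image (Mc B J c) = J₁.image (Mc B J c) ∪ J₂.image (Mc B J c) := by
      rw [← image_union, ← hs.union]
    have e4 : Disjoint (J₁.image (Mc B J c)) (J₂.image (Mc B J c)) := by
      rw [Finset.disjoint_left]
      intro K hK1 hK2
      rw [mem_image] at hK1 hK2
      obtain ⟨a, ha, rfl⟩ := hK1
      obtain ⟨b, hb, hb2⟩ := hK2
      have h5 := (Mc_mem h hJ c (hJ1 ha)).1
      rw [← hb2, hs.symm.Mc_eq c hb] at h5
      have h6 := (Mc_mem h (hJ2.trans hJ) c hb).2.2 h5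
      exact absurd h6 (Finset.disjoint_left.1 hs.disj ha)
    rw [e3, card_union_of_disjoint e4]
    have e5 : J.card = J₁.card + J₂.card := by rw [hs.union, card_union_of_disjoint hs.disj]
    have e6 : (J₁.image (Mc B J c)).card ≤ J₁.card := card_image_le
    have e7 : (J₂.image (Mc B J c)).card ≤ J₂.card := card_image_le
    omega

lemma Mc_eq_top (hSB : S ∈ B) (c : Fin m → ℝ) (hi : i ∈ S) :
    Mc B S c i = S ↔ ∀ j ∈ S, c j ≤ c i := by
  unfold Mc
  rw [if_pos hi]
  constructor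
  · intro h j hj
    rw [← h] at hj
    exact (mem_filter.1 (comp_subset hj)).2
  · intro h
    rw [filter_true_of_mem h]
    exact comp_self_of_mem hSB hi

lemma Mc_rest (c : Fin m → ℝ) {J : Finset (Fin m)} (hJS : J ⊆ S)
    (hJ : ∀ i ∈ J, ∀ j ∈ S, c j ≤ c i → j ∈ J) (hi : i ∈ J) :
    Mc B S c i = Mc B J c i := by
  unfold Mc
  rw [if_pos hi, if_pos (hJS hi)]
  congr 1
  ext j
  rw [mem_filter, mem_filter]
  constructor
  · rintro ⟨h1, h2⟩
    exact ⟨hJ i hi j h1 h2, h2⟩
  · rintro ⟨h1, h2⟩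
    exact ⟨hJS h1, h2⟩

lemma mem_low (hSB : S ∈ B) (c : Fin m → ℝ) (i : Fin m) :
    i ∈ S.filter (fun i => Mc B S c i ≠ S) ↔ i ∈ S ∧ ∃ j ∈ S, c i < c j := by
  rw [mem_filter]
  constructor
  · rintro ⟨h1, h2⟩
    refine ⟨h1, ?_⟩
    rw [Ne, Mc_eq_top hSB c h1] at h2
    push Not at h2
    exact h2
  · rintro ⟨h1, j, h2, h3⟩
    refine ⟨h1, ?_⟩
    rw [Ne, Mc_eq_top hSB c h1]
    push Not
    exact ⟨j, h2, h3⟩

lemma low_ssubset (h : IsB U B) (hSB : S ∈ B) (c : Fin m → ℝ) :
    S.filter (fun i => Mc B S c i ≠ S) ⊂ S := by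
  refine ⟨filter_subset _ _, ?_⟩
  intro hsub
  obtain ⟨a, ha, hmax⟩ := Finset.exists_max_image S c (h.nonempty S hSB)
  have := hsub ha
  rw [mem_low hSB] at this
  obtain ⟨_, j, hj, hlt⟩ := this
  exact absurd (hmax j hj) (not_le.2 hlt)

lemma Mc_low (hSB : S ∈ B) (c : Fin m → ℝ)
    (hi : i ∈ S.filter (fun i => Mc B S c i ≠ S)) :
    Mc B S c i = Mc B (S.filter (fun i => Mc B S c i ≠ S)) c i := by
  apply Mc_rest c (filter_subset _ _) _ hi
  intro i hi j hj hji
  rw [mem_low hSB] at hi ⊢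
  obtain ⟨_, k, hk, hlt⟩ := hi
  exact ⟨hj, k, hk, lt_of_le_of_lt hji hlt⟩

lemma res_low (hSB : S ∈ B) (c : Fin m → ℝ) :
    res (S.filter (fun i => Mc B S c i ≠ S)) (Mc B S c) =
      Mc B (S.filter (fun i => Mc B S c i ≠ S)) c := by
  funext i
  by_cases hi : i ∈ S.filter (fun i => Mc B S c i ≠ S)
  · rw [← Mc_low hSB c hi]
    simp only [res]
    rw [if_pos hi]
  · unfold res
    rw [if_neg hi]
    conv_rhs => unfold Mc
    rw [if_neg]
    exact hi

/-- Extending a functional by large values. -/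
noncomputable def ext (J : Finset (Fin m)) (c : Fin m → ℝ) : Fin m → ℝ :=
  fun i => if i ∈ J then c i else 1 + ∑ j ∈ J, |c j|

lemma ext_lt (c : Fin m → ℝ) (hi : i ∈ J) (hj : j ∉ J) : ext J c i < ext J c j := by
  unfold ext
  rw [if_pos hi, if_neg hj]
  have : |c i| ≤ ∑ j ∈ J, |c j| := single_le_sum (f := fun j => |c j|) (fun _ _ => abs_nonneg _) hi
  have := le_abs_self (c i)
  linarith

lemma Mc_ext (hSB : S ∈ B) (hJ : J ⊆ S) (c : Fin m → ℝ) :
    Mc B S (ext J c) = fun i => if i ∈ J then Mc B J c i else if i ∈ S then S else ∅ := by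
  funext i
  split_ifs with h1 h2
  · rw [Mc_rest (ext J c) hJ _ h1, Mc_congr_c (c' := c)]
    · intro i hi
      unfold ext
      rw [if_pos hi]
    · intro i hi j _ hji
      by_contra hj
      exact absurd (ext_lt c hi hj) (not_lt.2 hji)
  · rw [Mc_eq_top hSB _ h2]
    intro j _
    by_cases hj : j ∈ J
    · exact (ext_lt c hj h1).le
    · unfold ext
      rw [if_neg h1, if_neg hj]
  · unfold Mc
    rw [if_neg h2]

/-- the recursion for connected sets. -/
lemma F_conn (h : IsB U B) (hS : S ⊆ U) (hSB : S ∈ B) :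
    F B S = ∑ J ∈ S.ssubsets, (X - 1) ^ (S.card - J.card - 1) * F B J := by
  unfold F
  simp_rw [mul_sum]
  rw [sum_sigma']
  apply sum_nbij' (fun M => (⟨S.filter (fun i => M i ≠ S), res (S.filter (fun i => M i ≠ S)) M⟩ :
      (_ : Finset (Fin m)) × (Fin m → Finset (Fin m))))
    (fun p => fun i => if i ∈ p.1 then p.2 i else if i ∈ S then S else ∅)
  · intro M hM
    rw [mem_Phi] at hM
    obtain ⟨c, rfl⟩ := hM
    rw [mem_sigma, mem_ssubsets]
    refine ⟨low_ssubset h hSB c, ?_⟩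
    rw [mem_Phi]
    exact ⟨c, (res_low hSB c).symm⟩
  · rintro ⟨J, M⟩ hM
    rw [mem_sigma, mem_ssubsets, mem_Phi] at hM
    obtain ⟨hJ, c, hc⟩ := hM
    simp only at hJ hc
    subst hc
    rw [mem_Phi]
    exact ⟨ext J c, Mc_ext hSB hJ.1 c⟩
  · intro M hM
    rw [mem_Phi] at hM
    obtain ⟨c, rfl⟩ := hM
    funext i
    simp only
    by_cases hi : i ∈ S.filter (fun i => Mc B S c i ≠ S)
    · rw [if_pos hi]
      unfold res
      rw [if_pos hi]
    · rw [if_neg hi]
      split_ifs with h1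
      · rw [mem_filter] at hi
        tauto
      · unfold Mc
        rw [if_neg h1]
  · rintro ⟨J, M⟩ hM
    rw [mem_sigma, mem_ssubsets, mem_Phi] at hM
    obtain ⟨hJ, c, hc⟩ := hM
    simp only at hJ hc
    subst hc
    simp only
    have e : S.filter (fun i => (if i ∈ J then Mc B J c i else if i ∈ S then S else ∅) ≠ S) = J := by
      ext i
      rw [mem_filter]
      constructor
      · rintro ⟨h1, h2⟩
        by_contra h3
        rw [if_neg h3, if_pos h1] at h2
        exact h2 rfl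
      · intro h1
        refine ⟨hJ.1 h1, ?_⟩
        rw [if_pos h1]
        intro h2
        have := (Mc_mem h (hJ.1.trans hS) c h1).2.2
        rw [h2] at this
        exact hJ.2 this
    rw [e]
    congr 1
    funext i
    unfold res
    split_ifs with h1
    · simp only [if_pos h1]
    · unfold Mc
      rw [if_neg h1]
  · intro M hM
    rw [mem_Phi] at hM
    obtain ⟨c, rfl⟩ := hM
    simp only
    rw [← pow_add]
    congr 1
    set J := S.filter (fun i => Mc B S c i ≠ S) with hJ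
    rw [image_res]
    have hlt := low_ssubset h hSB c
    rw [← hJ] at hlt
    have e1 : S.image (Mc B S c) = insert S (J.image (Mc B S c)) := by
      ext K
      rw [mem_insert, mem_image, mem_image]
      constructor
      · rintro ⟨a, ha, rfl⟩
        by_cases h2 : Mc B S c a = S
        · exact Or.inl h2
        · exact Or.inr ⟨a, by rw [hJ, mem_filter]; exact ⟨ha, h2⟩, rfl⟩
      · rintro (rfl | ⟨a, ha, rfl⟩)
        · obtain ⟨a, ha, ha2⟩ := exists_of_ssubset hlt
          refine ⟨a, ha, ?_⟩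
          by_contra h3
          apply ha2
          rw [hJ, mem_filter]
          exact ⟨ha, h3⟩
        · exact ⟨a, hlt.1 ha, rfl⟩
    have e2 : S ∉ J.image (Mc B S c) := by
      intro h2
      rw [mem_image] at h2
      obtain ⟨a, ha, ha2⟩ := h2
      rw [hJ, mem_filter] at ha
      exact ha.2 ha2
    rw [e1, card_insert_of_notMem e2]
    have e3 : (J.image (Mc B S c)).card ≤ J.card := card_image_le
    have e4 : J.card < S.card := card_lt_card hlt
    omega

end Pool.Agent.KS6_69.Nesto
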