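import Pool.Agent.KS6_69.Nesto.Polytope

/-!
# The cyclohedron
-/

namespace Pool.Agent.KS6_69.Nesto

open Finset Polynomial SimpleGraph

/-- The building set of the `n`-dimensional cyclohedron: the nonempty vertex sets inducing a
connected subgraph of the cycle graph with `n+1` vertices. -/
noncomputable def cyclicBuildingSet (n : ℕ) : Finset (Finset (Fin (n + 1))) :=
  (Set.toFinite {K : Finset (Fin (n + 1)) | K.Nonempty ∧
    ((cycleGraph (n + 1)).induce (K : Set (Fin (n + 1)))).Connected}).toFinset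

lemma mem_cyclic {n : ℕ} {K : Finset (Fin (n + 1))} : K ∈ cyclicBuildingSet n ↔
    K.Nonempty ∧ ((cycleGraph (n + 1)).induce (K : Set (Fin (n + 1)))).Connected := by
  unfold cyclicBuildingSet
  rw [Set.Finite.mem_toFinset]
  rfl

lemma adj_val {n : ℕ} {u v : Fin (n + 1)} (h : (cycleGraph (n + 1)).Adj u v) :
    u.val + 1 = v.val ∨ v.val + 1 = u.val ∨ (u.val = 0 ∧ v.val = n) ∨ (v.val = 0 ∧ u.val = n) := by
  rw [cycleGraph_adj'] at h
  have hu := u.2
  have hv := v.2
  have key : ∀ u v : Fin (n + 1), (u - v).val = 1 →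
      v.val + 1 = u.val ∨ (u.val = 0 ∧ v.val = n) := by
    intro u v h
    have hu := u.2
    have hv := v.2
    rcases le_or_gt v u with h1 | h1
    · rw [Fin.sub_val_of_le h1] at h
      have : v.val ≤ u.val := h1
      omega
    · rw [Fin.coe_sub_iff_lt.2 h1] at h
      have : u.val < v.val := h1
      omega
  rcases h with h | h
  · rcases key u v h with h | h <;> omega
  · rcases key v u h with h | h <;> omega

lemma adj_succ {n : ℕ} {u v : Fin (n + 1)} (h : u.val + 1 = v.val) :
    (cycleGraph (n + 1)).Adj u v := by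
  rw [cycleGraph_adj']
  right
  have h1 : u ≤ v := by
    rw [Fin.le_def]; omega
  rw [Fin.sub_val_of_le h1]
  omega

lemma adj_wrap {n : ℕ} {u v : Fin (n + 1)} (hn : 1 ≤ n) (h : u.val = 0) (h' : v.val = n) :
    (cycleGraph (n + 1)).Adj u v := by
  rw [cycleGraph_adj']
  left
  have h1 : u < v := by
    rw [Fin.lt_def]; omega
  rw [Fin.coe_sub_iff_lt.2 h1]
  omega

lemma path_reach {n : ℕ} {K : Finset (Fin (n + 1))} : ∀ (d : ℕ) (x y : Fin (n + 1))
    (hx : x ∈ (K : Set (Fin (n + 1)))) (hy : y ∈ (K : Set (Fin (n + 1)))),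
    y.val = x.val + d → (∀ z, x ≤ z → z ≤ y → z ∈ K) →
    ((cycleGraph (n + 1)).induce (K : Set (Fin (n + 1)))).Reachable ⟨x, hx⟩ ⟨y, hy⟩ := by
  intro d
  induction d with
  | zero =>
    intro x y hx hy h _
    have : x = y := Fin.ext (by omega)
    subst this
    exact Reachable.refl _
  | succ d ih =>
    intro x y hx hy h hK
    have hy2 := y.2
    set y' : Fin (n + 1) := ⟨x.val + d, by omega⟩ with hy'
    have h1 : x ≤ y' := by rw [Fin.le_def]; simp [hy']
    have h2 : y' ≤ y := by rw [Fin.le_def]; simp only [hy']; omega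
    have h3 : y' ∈ K := hK y' h1 h2
    have h4 := ih x y' hx h3 rfl (fun z hz hz2 => hK z hz (hz2.trans h2))
    refine h4.trans (Adj.reachable ?_)
    rw [SimpleGraph.comap_adj]
    apply adj_succ
    simp only [hy', Function.Embedding.subtype_apply]
    omega

lemma cyclic_isB (n : ℕ) : IsB univ (cyclicBuildingSet n) := by
  refine ⟨?_, ?_, ?_⟩
  · intro K hK
    exact (mem_cyclic.1 hK).1
  · intro K hK L hL hKL
    rw [mem_cyclic] at hK hL ⊢
    refine ⟨hK.1.mono subset_union_left, ?_⟩
    rw [coe_union]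
    apply induce_union_connected hK.2.preconnected hL.2.preconnected
    rw [← coe_inter]
    exact hKL
  · intro i _
    rw [mem_cyclic]
    refine ⟨singleton_nonempty i, ?_⟩
    have : Nonempty ↥(({i} : Finset (Fin (n + 1))) : Set (Fin (n + 1))) := ⟨⟨i, by simp⟩⟩
    refine ⟨?_⟩
    rintro ⟨x, hx⟩ ⟨y, hy⟩
    have hx' : x = i := by simpa using hx
    have hy' : y = i := by simpa using hy
    subst hx'
    subst hy'
    exact Reachable.refl _

lemma walk_inside {n : ℕ} {K : Finset (Fin (n + 1))} {p q : Fin (n + 1)} (hp : p ∉ K)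
    (hq : q ∉ K) (a b : ↥(K : Set (Fin (n + 1))))
    (w : ((cycleGraph (n + 1)).induce (K : Set (Fin (n + 1)))).Walk a b) :
    (p < a.1 ∧ a.1 < q) → (p < b.1 ∧ b.1 < q) := by
  induction w with
  | nil => exact id
  | @cons u v w hadj _ ih =>
    intro hu
    apply ih
    rw [SimpleGraph.comap_adj] at hadj
    have h1 := adj_val hadj
    simp only [Function.Embedding.subtype_apply] at h1
    have h2 : v.1 ≠ p := by
      intro h
      apply hp
      rw [← h]
      exact v.2
    have h3 : v.1 ≠ q := by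
      intro h
      apply hq
      rw [← h]
      exact v.2
    have h4 : v.1.val ≠ p.val := fun h => h2 (Fin.ext h)
    have h5 : v.1.val ≠ q.val := fun h => h3 (Fin.ext h)
    have h6 := q.2
    rw [Fin.lt_def, Fin.lt_def] at hu ⊢
    omega

lemma cyclic_cyc (n : ℕ) : Cyc (cyclicBuildingSet n) univ := by
  intro K _ hne
  constructor
  · intro hK
    rw [mem_cyclic] at hK
    by_contra hcon
    push Not at hcon
    obtain ⟨h1, h2⟩ := hcon
    unfold Conv at h1 h2
    push Not at h1 h2
    obtain ⟨x, hx, z, hz, y, _, hxy, hyz, hy⟩ := h1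
    obtain ⟨u, hu, w, hw, v, _, huv, hvw, hv⟩ := h2
    have huK : u ∉ K := (mem_sdiff.1 hu).2
    have hwK : w ∉ K := (mem_sdiff.1 hw).2
    have hvK : v ∈ K := by
      by_contra h
      exact hv (mem_sdiff.2 ⟨mem_univ _, h⟩)
    have hne : v ≠ y := by rintro rfl; exact hy hvK
    rcases lt_or_gt_of_ne hne with h3 | h3
    · obtain ⟨wk⟩ := hK.2.preconnected ⟨v, hvK⟩ ⟨z, hz⟩
      have := walk_inside huK hy _ _ wk ⟨huv, h3⟩
      exact absurd (hyz.trans this.2) (lt_irrefl _)
    · obtain ⟨wk⟩ := hK.2.preconnected ⟨v, hvK⟩ ⟨x, hx⟩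
      have := walk_inside hy hwK _ _ wk ⟨h3, hvw⟩
      exact absurd (hxy.trans this.1) (lt_irrefl _)
  · intro hconv
    rw [mem_cyclic]
    refine ⟨hne, ?_⟩
    have : Nonempty ↥(K : Set (Fin (n + 1))) := by
      obtain ⟨x, hx⟩ := hne
      exact ⟨⟨x, hx⟩⟩
    refine ⟨?_⟩
    have key : ∀ (x y : Fin (n + 1)) (hx : x ∈ (K : Set (Fin (n + 1))))
        (hy : y ∈ (K : Set (Fin (n + 1)))), x ≤ y →
        ((cycleGraph (n + 1)).induce (K : Set (Fin (n + 1)))).Reachable ⟨x, hx⟩ ⟨y, hy⟩ := by
      intro x y hx hy hxy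
      have hxyv : x.val ≤ y.val := hxy
      by_cases hall : ∀ z, x ≤ z → z ≤ y → z ∈ K
      · exact path_reach (y.val - x.val) x y hx hy (by omega) hall
      · push Not at hall
        obtain ⟨w, hxw, hwy, hwK⟩ := hall
        have hxw' : x < w := lt_of_le_of_ne hxw (by rintro rfl; exact hwK hx)
        have hwy' : w < y := lt_of_le_of_ne hwy (by rintro rfl; exact hwK hy)
        rcases hconv with hc | hc
        · exact absurd (hc x hx y hy w (mem_univ w) hxw' hwy') hwK
        · have hlow : ∀ z, z ≤ x → z ∈ K := by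
            intro z hz
            by_contra hzK
            have hzx : z < x := lt_of_le_of_ne hz (by rintro rfl; exact hzK hx)
            have := hc z (mem_sdiff.2 ⟨mem_univ _, hzK⟩) w (mem_sdiff.2 ⟨mem_univ _, hwK⟩) x
              (mem_univ x) hzx hxw'
            exact (mem_sdiff.1 this).2 hx
          have hhigh : ∀ z, y ≤ z → z ∈ K := by
            intro z hz
            by_contra hzK
            have hzx : y < z := lt_of_le_of_ne hz (by rintro rfl; exact hzK hy)
            have := hc w (mem_sdiff.2 ⟨mem_univ _, hwK⟩) z (mem_sdiff.2 ⟨mem_univ _, hzK⟩) y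
              (mem_univ y) hwy' hzx
            exact (mem_sdiff.1 this).2 hy
          have hn : 1 ≤ n := by
            have h1 : w.val < y.val := hwy'
            have := y.2
            omega
          have h0K : (⟨0, by omega⟩ : Fin (n + 1)) ∈ K := hlow _ (by rw [Fin.le_def]; simp)
          have hnK : (⟨n, by omega⟩ : Fin (n + 1)) ∈ K :=
            hhigh _ (by rw [Fin.le_def]; have := y.2; simp; omega)
          have r1 := path_reach (K := K) x.val ⟨0, by omega⟩ x h0K hx (by simp)
            (fun z _ hz => hlow z hz)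
          have r2 := path_reach (K := K) (n - y.val) y ⟨n, by omega⟩ hy hnK
            (by have := y.2; simp; omega) (fun z hz _ => hhigh z hz)
          have r3 : ((cycleGraph (n + 1)).induce (K : Set (Fin (n + 1)))).Reachable
              ⟨⟨0, by omega⟩, h0K⟩ ⟨⟨n, by omega⟩, hnK⟩ := by
            apply Adj.reachable
            rw [SimpleGraph.comap_adj]
            exact adj_wrap hn rfl rfl
          exact (r1.symm.trans r3).trans r2.symm
    rintro ⟨x, hx⟩ ⟨y, hy⟩
    rcases le_total x y with h | h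
    · exact key x y hx hy h
    · exact (key y x hy hx h).symm

end Pool.Agent.KS6_69.Nesto
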