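import Pool.Agent.KS6_69.Nesto.Cycle
import Pool.Agent.KS6_69.Toric.Final

/-!
# Real-rootedness of the toric g-polynomial of chordal nestohedra and cyclohedra
-/

namespace Pool.Agent.KS6_69.Nesto

open Finset Polynomial Pool.Agent.KS6_69.Toric

/-- `B` is a building set on the ground set `Fin (n+1)`. -/
structure IsBuildingSet {m : ℕ} (B : Finset (Finset (Fin m))) : Prop where
  nonempty : ∀ I ∈ B, I.Nonempty
  singleton : ∀ i : Fin m, ({i} : Finset (Fin m)) ∈ B
  union : ∀ I ∈ B, ∀ J ∈ B, (I ∩ J).Nonempty → I ∪ J ∈ B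

/-- `B` is chordal: every tail of a member is a member. -/
def IsChordal {m : ℕ} (B : Finset (Finset (Fin m))) : Prop :=
  ∀ I ∈ B, ∀ i ∈ I, I.filter (fun x => i ≤ x) ∈ B

/-- `γ` (its entries `0, …, ⌊n/2⌋`) is the `γ`-vector of the `n`-dimensional polytope `P`. -/
def IsGamma {m : ℕ} (n : ℕ) (P : Set (Fin m → ℝ)) (γ : ℕ → ℝ) : Prop :=
  hPoly n P = ∑ j ∈ range (n / 2 + 1), C (γ j) * (X ^ j * (1 + X) ^ (n - 2 * j))

/-- `P` has a `γ`-vector, and its toric `g`-polynomial `∑_j γ_j g_{n,j}` is real-rooted. -/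
def ToricGRealRooted {m : ℕ} (n : ℕ) (P : Set (Fin m → ℝ)) : Prop :=
  (∃ γ, IsGamma n P γ) ∧
    ∀ γ, IsGamma n P γ → RealRooted (∑ j ∈ range (n / 2 + 1), C (γ j) * g n j)

lemma gamma_zero {n : ℕ} {a : ℕ → ℝ}
    (h : ∑ j ∈ range (n / 2 + 1), C (a j) * (X ^ j * (1 + X) ^ (n - 2 * j)) = (0 : ℝ[X])) :
    ∀ j ≤ n / 2, a j = 0 := by
  intro j
  induction j using Nat.strong_induction_on with
  | _ j ih =>
    intro hj
    have h1 := congrArg (fun p => coeff p j) h
    simp only [finsetSum_coeff, coeff_zero, coeff_C_mul, coeff_X_pow_mul'] at h1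
    rw [sum_eq_single j] at h1
    · simpa [coeff_zero_eq_eval_zero] using h1
    · intro i hi hij
      rw [mem_range] at hi
      split_ifs with h2
      · rw [ih i (lt_of_le_of_ne h2 hij) (by omega), zero_mul]
      · rw [mul_zero]
    · intro h2
      exfalso
      apply h2
      rw [mem_range]
      omega

lemma gamma_unique {n : ℕ} {P : Set (Fin (n + 1) → ℝ)} {γ δ : ℕ → ℝ} (h1 : IsGamma n P γ)
    (h2 : IsGamma n P δ) : ∀ j ≤ n / 2, γ j = δ j := by
  unfold IsGamma at h1 h2
  have h3 : ∑ j ∈ range (n / 2 + 1), C (γ j - δ j) * (X ^ j * (1 + X) ^ (n - 2 * j)) =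
      (0 : ℝ[X]) := by
    simp only [C_sub, sub_mul, sum_sub_distrib]
    rw [← h1, ← h2, sub_self]
  intro j hj
  have := gamma_zero h3 j hj
  linarith

lemma F_ne_zero {m : ℕ} (B : Finset (Finset (Fin m))) (J : Finset (Fin m)) : F B J ≠ 0 := by
  intro h
  have h1 := congrArg (eval 2) h
  unfold F at h1
  rw [eval_finsetSum] at h1
  have h2 : ∀ M ∈ Phi B J, eval 2 ((X - 1 : ℝ[X]) ^ (J.card - (J.image M).card)) = 1 := by
    intro M _
    simp only [eval_pow, eval_sub, eval_X, eval_one]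
    norm_num
  rw [sum_congr rfl h2, sum_const, nsmul_eq_mul, mul_one, eval_zero] at h1
  have h3 : (Phi B J).Nonempty := ⟨Mc B J (fun _ => 0), mem_Phi.2 ⟨_, rfl⟩⟩
  have h4 := card_pos.2 h3
  have h5 : ((Phi B J).card : ℝ) ≠ 0 := by positivity
  exact h5 h1

lemma of_GP {n : ℕ} {B : Finset (Finset (Fin (n + 1)))} (h : IsB univ B)
    (hGP : GP n (F B univ)) : ToricGRealRooted n (nestohedron B) := by
  obtain ⟨γ, h1, h2⟩ := hGP.gamma
  have h3 : IsGamma n (nestohedron B) γ := by
    unfold IsGamma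
    rw [hPoly_eq h, h2]
    apply sum_congr rfl
    intro j _
    rw [mul_assoc]
  refine ⟨⟨γ, h3⟩, fun δ hδ => ?_⟩
  have hu := gamma_unique hδ h3
  apply combo_realRooted n δ
  · intro j hj
    rw [hu j hj]
    exact h1 j
  · by_contra hcon
    push Not at hcon
    apply F_ne_zero B univ
    rw [← hPoly_eq h, hδ]
    apply sum_eq_zero
    intro j hj
    rw [mem_range] at hj
    rw [hcon j (by omega), C_0, zero_mul]

theorem chordal_result {n : ℕ} {B : Finset (Finset (Fin (n + 1)))} (hB : IsBuildingSet B)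
    (hconn : univ ∈ B) (hch : IsChordal B) : ToricGRealRooted n (nestohedron B) := by
  have h : IsB univ B := ⟨hB.nonempty, hB.union, fun i _ => hB.singleton i⟩
  apply of_GP h
  have hc : Chord B univ := by
    intro K hK _ k hk
    obtain ⟨i, hi, hmin⟩ := Finset.exists_min_image (K.filter (fun x => k < x)) id hk
    simp only [id] at hmin
    rw [mem_filter] at hi
    have e : K.filter (fun x => k < x) = K.filter (fun x => i ≤ x) := by
      ext x
      rw [mem_filter, mem_filter]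
      constructor
      · rintro ⟨h1, h2⟩
        exact ⟨h1, hmin x (mem_filter.2 ⟨h1, h2⟩)⟩
      · rintro ⟨h1, h2⟩
        exact ⟨h1, lt_of_lt_of_le hi.2 h2⟩
    rw [e]
    exact hch K hK i hi.1
  have := gp_chord _ univ B univ le_rfl h Subset.rfl hc
  rw [cc_of_mem h hconn, card_univ, Fintype.card_fin, Nat.add_sub_cancel] at this
  exact this

theorem cyclo_result (n : ℕ) : ToricGRealRooted n (nestohedron (cyclicBuildingSet n)) := by
  have h := cyclic_isB n
  apply of_GP h
  have := gp_cyc _ univ (cyclicBuildingSet n) univ le_rfl h Subset.rfl (cyclic_cyc n)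
    ⟨0, mem_univ 0⟩
  rw [card_univ, Fintype.card_fin, Nat.add_sub_cancel] at this
  exact this

end Pool.Agent.KS6_69.Nesto
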