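import Pool.Agent.KS6_69.Nesto.Ident

/-!
# Nonnegativity of the gamma vector for chordal and cyclic building sets
-/

namespace Pool.Agent.KS6_69.Nesto

open Finset Polynomial

variable {m : ℕ}

variable {U J K S I : Finset (Fin m)} {B : Finset (Finset (Fin m))} {i j x a : Fin m}

/-- The cone of `γ`-nonnegative polynomials with centre of symmetry `d/2`. -/
inductive GP : ℕ → ℝ[X] → Prop
  | zero (d : ℕ) : GP d 0
  | base (j k : ℕ) (r : ℝ) (hr : 0 ≤ r) : GP (2 * j + k) (C r * X ^ j * (1 + X) ^ k)
  | add {d : ℕ} {p q : ℝ[X]} : GP d p → GP d q → GP d (p + q)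

lemma GP.mul {d e : ℕ} {p q : ℝ[X]} (hp : GP d p) (hq : GP e q) : GP (d + e) (p * q) := by
  induction hp with
  | zero d => rw [zero_mul]; exact GP.zero _
  | add _ _ ih1 ih2 => rw [add_mul]; exact GP.add ih1 ih2
  | base j k r hr =>
    induction hq with
    | zero d => rw [mul_zero]; exact GP.zero _
    | add _ _ ih1 ih2 => rw [mul_add]; exact GP.add ih1 ih2
    | base j' k' r' hr' =>
      have := GP.base (j + j') (k + k') (r * r') (mul_nonneg hr hr')
      have e1 : 2 * (j + j') + (k + k') = 2 * j + k + (2 * j' + k') := by ring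
      rw [e1] at this
      convert this using 1
      rw [C_mul]
      ring

lemma GP.sum {d : ℕ} {ι : Type*} (s : Finset ι) (f : ι → ℝ[X]) (h : ∀ i ∈ s, GP d (f i)) :
    GP d (∑ i ∈ s, f i) := by
  classical
  induction s using Finset.induction_on with
  | empty => rw [sum_empty]; exact GP.zero _
  | insert a s ha ih =>
    rw [sum_insert ha]
    exact GP.add (h a (mem_insert_self a s)) (ih fun i hi => h i (mem_insert_of_mem hi))

lemma GP.gamma {d : ℕ} {p : ℝ[X]} (hp : GP d p) : ∃ γ : ℕ → ℝ, (∀ j, 0 ≤ γ j) ∧
    p = ∑ j ∈ range (d / 2 + 1), C (γ j) * X ^ j * (1 + X) ^ (d - 2 * j) := by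
  induction hp with
  | zero d => exact ⟨fun _ => 0, fun _ => le_rfl, by simp⟩
  | add _ _ ih1 ih2 =>
    obtain ⟨γ, h1, h2⟩ := ih1
    obtain ⟨δ, h3, h4⟩ := ih2
    refine ⟨fun j => γ j + δ j, fun j => add_nonneg (h1 j) (h3 j), ?_⟩
    rw [h2, h4, ← sum_add_distrib]
    apply sum_congr rfl
    intro j _
    rw [C_add]
    ring
  | base j k r hr =>
    refine ⟨fun i => if i = j then r else 0, fun i => by simp only; split_ifs <;> simp [hr], ?_⟩
    rw [sum_eq_single j]
    · simp only [if_true]
      congr 2
      omega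
    · intro i _ hi
      simp only [if_neg hi]
      simp
    · intro hj
      exfalso
      apply hj
      rw [mem_range]
      omega

lemma GP_one : GP 0 1 := by
  have := GP.base 0 0 1 zero_le_one
  simpa using this

lemma GP_one_add : GP 1 (1 + X) := by
  have := GP.base 0 1 1 zero_le_one
  simpa using this

lemma GP_tau {k : ℕ} (hk1 : 1 ≤ k) (hk : k ≤ 2) : GP (k + 1) (tau k) := by
  have : k = 1 ∨ k = 2 := by omega
  rcases this with rfl | rfl
  · have := GP.base 1 0 1 zero_le_one
    simpa [tau] using this
  · have := GP.base 1 1 1 zero_le_one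
    simpa [tau, sum_range_succ] using this

lemma tau_zero : tau 0 = 0 := by simp [tau]
lemma tau_one : tau 1 = X := by simp [tau]

/-- The induction step. -/
lemma step (h : IsB U B) (hS : S ⊆ U) (hSB : S ∈ B) (haS : a ∈ S) (hT : S.erase a ∈ B)
    (hGT : GP (S.card - 2) (F B (S.erase a)))
    (hI : ∀ I ∈ B, a ∈ I → I ⊂ S → cc B (I.erase a) ≤ 2 ∧
      GP ((I.erase a).card - cc B (I.erase a)) (F B (I.erase a)) ∧
      GP (S.card - I.card - 1) (F (con B I) (S \ I))) : GP (S.card - 1) (F B S) := by
  have haT : a ∉ S.erase a := notMem_erase a S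
  have hTU : S.erase a ⊆ U := (erase_subset _ _).trans hS
  have h1 := main_ident h (hS haS) _ (S.erase a) le_rfl hTU haT
  rw [insert_erase haS] at h1
  have hTne := h.nonempty _ hT
  have hTcard : 0 < (S.erase a).card := card_pos.2 hTne
  have hcard : (S.erase a).card + 1 = S.card := card_erase_add_one haS
  have hmem : S ∈ B.filter (fun I => a ∈ I ∧ I ⊆ S) := by
    rw [mem_filter]; exact ⟨hSB, haS, Subset.rfl⟩
  unfold G at h1
  rw [← add_sum_erase _ _ hmem, cc_of_mem h hT, tau_one, sdiff_self, bot_eq_empty, F_empty] at h1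
  rw [h1]
  have e1 : F B (S.erase a) + (X * 1 * F B (S.erase a) +
      ∑ I ∈ (B.filter (fun I => a ∈ I ∧ I ⊆ S)).erase S,
        tau (cc B (I.erase a)) * F (con B I) (S \ I) * F B (I.erase a)) =
      (1 + X) * F B (S.erase a) +
      ∑ I ∈ (B.filter (fun I => a ∈ I ∧ I ⊆ S)).erase S,
        tau (cc B (I.erase a)) * F (con B I) (S \ I) * F B (I.erase a) := by ring
  rw [e1]
  apply GP.add
  · have := GP_one_add.mul hGT
    have e2 : 1 + (S.card - 2) = S.card - 1 := by omega
    rwa [e2] at this
  · apply GP.sum
    intro I hI2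
    rw [mem_erase, mem_filter] at hI2
    obtain ⟨hne, hIB, haI, hIS⟩ := hI2
    have hlt : I ⊂ S := lt_of_le_of_ne hIS hne
    obtain ⟨h3, h4, h5⟩ := hI I hIB haI hlt
    rcases Nat.eq_zero_or_pos (cc B (I.erase a)) with h6 | h6
    · rw [h6, tau_zero, zero_mul, zero_mul]
      exact GP.zero _
    · have h7 := ((GP_tau h6 h3).mul h5).mul h4
      have h8 := card_lt_card hlt
      have h9 : (I.erase a).card + 1 = I.card := card_erase_add_one haI
      have h10 : cc B (I.erase a) ≤ (I.erase a).card := cc_le
      have e3 : cc B (I.erase a) + 1 + (S.card - I.card - 1) +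
          ((I.erase a).card - cc B (I.erase a)) = S.card - 1 := by omega
      rwa [e3] at h7

lemma F_singleton (h : IsB U B) (ha : a ∈ U) : F B {a} = 1 := by
  have h1 := main_ident h ha 0 ∅ (by simp) (empty_subset _) (notMem_empty a)
  rw [F_empty] at h1
  have e1 : insert a (∅ : Finset (Fin m)) = {a} := by simp
  rw [e1] at h1
  rw [h1]
  have : G B a {a} = 0 := by
    unfold G
    apply sum_eq_zero
    intro I hI
    rw [mem_filter] at hI
    have hI2 : I = {a} := Subset.antisymm hI.2.2 (singleton_subset_iff.2 hI.2.1)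
    rw [hI2]
    simp [cc_empty, tau_zero]
  rw [this, add_zero]

/-- Chordality of the restriction of `B` to `S`. -/
def Chord (B : Finset (Finset (Fin m))) (S : Finset (Fin m)) : Prop :=
  ∀ K ∈ B, K ⊆ S → ∀ k, (K.filter (fun x => k < x)).Nonempty → K.filter (fun x => k < x) ∈ B

lemma Chord.mono {S' : Finset (Fin m)} (h : Chord B S) (hS : S' ⊆ S) : Chord B S' :=
  fun K hK hKS k hk => h K hK (hKS.trans hS) k hk

lemma erase_min (ha : ∀ x ∈ S, a ≤ x) (hI : I ⊆ S) : I.erase a = I.filter (fun x => a < x) := by
  ext x
  rw [mem_erase, mem_filter]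
  constructor
  · rintro ⟨h1, h2⟩
    exact ⟨h2, lt_of_le_of_ne (ha x (hI h2)) (Ne.symm h1)⟩
  · rintro ⟨h1, h2⟩
    exact ⟨ne_of_gt h2, h1⟩

lemma Chord.con (h : IsB U B) (hI : I ∈ B) (hIS : I ⊆ S) (hc : Chord B S) :
    Chord (con B I) (S \ I) := by
  intro K hK hKS k hk
  rw [mem_con] at hK ⊢
  obtain ⟨h1, h2, h3⟩ := hK
  refine ⟨hk, disjoint_of_subset_left (filter_subset _ _) h2, ?_⟩
  have hKS' : K ⊆ S := hKS.trans sdiff_subset
  rcases h3 with h3 | h3
  · exact Or.inl (hc K h3 hKS' k hk)
  · have h4 := hc (K ∪ I) h3 (union_subset hKS' hIS) k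
      (by rw [filter_union]; exact hk.mono subset_union_left)
    rw [filter_union] at h4
    rcases (I.filter (fun x => k < x)).eq_empty_or_nonempty with h5 | h5
    · rw [h5, union_empty] at h4
      exact Or.inl h4
    · right
      have h6 := h.union _ h4 _ hI (by
        obtain ⟨x, hx⟩ := h5
        exact ⟨x, mem_inter.2 ⟨mem_union_right _ hx, (mem_filter.1 hx).1⟩⟩)
      rw [union_assoc, union_eq_right.2 (filter_subset _ I)] at h6
      exact h6

theorem gp_chord : ∀ (n : ℕ) (U : Finset (Fin m)) (B : Finset (Finset (Fin m)))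
    (S : Finset (Fin m)), S.card ≤ n → IsB U B → S ⊆ U → Chord B S →
    GP (S.card - cc B S) (F B S) := by
  intro n
  induction n with
  | zero =>
    intro U B S hn _ _ _
    have : S = ∅ := card_eq_zero.1 (Nat.le_zero.1 hn)
    subst this
    rw [F_empty]
    simpa using GP_one
  | succ n ih =>
    intro U B S hn h hS hc
    rcases S.eq_empty_or_nonempty with rfl | hne
    · rw [F_empty]
      simpa using GP_one
    by_cases hSB : S ∈ B
    · rw [cc_of_mem h hSB]
      obtain ⟨a, haS, hmin⟩ := Finset.exists_min_image S id hne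
      simp only [id] at hmin
      have hcard : (S.erase a).card + 1 = S.card := card_erase_add_one haS
      rcases (S.erase a).eq_empty_or_nonempty with hT | hT
      · have : S = {a} := by
          rw [← insert_erase haS, hT]; simp
        rw [this, F_singleton h (hS haS)]
        simpa using GP_one
      · have hTB : S.erase a ∈ B := by
          rw [erase_min hmin Subset.rfl] at hT ⊢
          exact hc S hSB Subset.rfl a hT
        apply step h hS hSB haS hTB
        · have := ih U B (S.erase a) (by omega) h ((erase_subset _ _).trans hS)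
            (hc.mono (erase_subset _ _))
          rw [cc_of_mem h hTB] at this
          have e : (S.erase a).card - 1 = S.card - 2 := by omega
          rwa [e] at this
        · intro I hI haI hlt
          have hIc := card_lt_card hlt
          have hIe : (I.erase a).card + 1 = I.card := card_erase_add_one haI
          refine ⟨?_, ?_, ?_⟩
          · rcases (I.erase a).eq_empty_or_nonempty with h1 | h1
            · rw [h1, cc_empty]; omega
            · rw [erase_min hmin hlt.1] at h1 ⊢
              rw [cc_of_mem h (hc I hI hlt.1 a h1)]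
              omega
          · exact ih U B (I.erase a) (by omega) h
              ((erase_subset _ _).trans (hlt.1.trans hS))
              (hc.mono ((erase_subset _ _).trans hlt.1))
          · have e1 := card_sdiff_add_card_eq_card hlt.1
            have hIpos : 0 < I.card := card_pos.2 ⟨a, haI⟩
            have := ih (U \ I) (con B I) (S \ I) (by omega) (con_isB h hI)
              (sdiff_subset_sdiff hS Subset.rfl) (hc.con h hI hlt.1)
            rw [cc_of_mem (con_isB h hI)] at this
            · have e : (S \ I).card - 1 = S.card - I.card - 1 := by omega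
              rwa [e] at this
            · rw [mem_con]
              refine ⟨?_, sdiff_disjoint, Or.inr ?_⟩
              · rw [← card_pos]; omega
              · rw [sdiff_union_of_subset hlt.1]
                exact hSB
    · obtain ⟨i, hi⟩ := hne
      have hs := sep_comp h hS hi
      have hC := comp_mem h hS hi
      have hCS : comp B S i ⊆ S := comp_subset
      have hCne : comp B S i ≠ S := by
        intro h1
        rw [h1] at hC
        exact hSB hC.1
      have hlt : comp B S i ⊂ S := lt_of_le_of_ne hCS hCne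
      have h1 := card_lt_card hlt
      have h2 := card_sdiff_add_card_eq_card hCS
      have h3 : 0 < (comp B S i).card := card_pos.2 ⟨i, hC.2⟩
      have g1 := ih U B (comp B S i) (by omega) h (hCS.trans hS) (hc.mono hCS)
      have g2 := ih U B (S \ comp B S i) (by omega) h (sdiff_subset.trans hS)
        (hc.mono sdiff_subset)
      rw [F_sep h hS hs, cc_sep h hS hs]
      rw [cc_of_mem h hC.1] at g1 ⊢
      have h4 : cc B (S \ comp B S i) ≤ (S \ comp B S i).card := cc_le
      have := g1.mul g2
      have e : (comp B S i).card - 1 + ((S \ comp B S i).card - cc B (S \ comp B S i)) =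
        S.card - (1 + cc B (S \ comp B S i)) := by omega
      rwa [e] at this

/-- `K` is order-convex in `S`. -/
def Conv (S K : Finset (Fin m)) : Prop := ∀ x ∈ K, ∀ z ∈ K, ∀ y ∈ S, x < y → y < z → y ∈ K

/-- The members of `B` inside `S` are the arcs of the cyclically ordered set `S`. -/
def Cyc (B : Finset (Finset (Fin m))) (S : Finset (Fin m)) : Prop :=
  ∀ K ⊆ S, K.Nonempty → (K ∈ B ↔ (Conv S K ∨ Conv S (S \ K)))

lemma cc_le_two (h : IsB U B) (hJ : J ⊆ U) {J₁ J₂ : Finset (Fin m)} (hu : J = J₁ ∪ J₂)
    (h1 : J₁.Nonempty → J₁ ∈ B) (h2 : J₂.Nonempty → J₂ ∈ B) : cc B J ≤ 2 := by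
  have key : ∀ K ⊆ J, (K.Nonempty → K ∈ B) → (K.image (comp B J)).card ≤ 1 := by
    intro K hKJ hK
    rw [card_le_one]
    intro x hx y hy
    rw [mem_image] at hx hy
    obtain ⟨a, ha, rfl⟩ := hx
    obtain ⟨b, hb, rfl⟩ := hy
    have hKB := hK ⟨a, ha⟩
    symm
    apply comp_eq h hJ (hKJ ha)
    exact subset_comp hKB hKJ ha hb
  unfold cc
  have hJ1 : J₁ ⊆ J := by rw [hu]; exact subset_union_left
  have hJ2 : J₂ ⊆ J := by rw [hu]; exact subset_union_right
  have e1 : J.image (comp B J) = J₁.image (comp B J) ∪ J₂.image (comp B J) := by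
    rw [← image_union, ← hu]
  rw [e1]
  have := card_union_le (J₁.image (comp B J)) (J₂.image (comp B J))
  have := key J₁ hJ1 h1
  have := key J₂ hJ2 h2
  omega

lemma Cyc.compl_conv (hc : Cyc B S) (hmin : ∀ x ∈ S, a ≤ x) (hI : I ∈ B) (haI : a ∈ I)
    (hIS : I ⊆ S) : Conv S (S \ I) := by
  rcases (hc I hIS ⟨a, haI⟩).1 hI with h | h
  · intro x hx z hz y hy hxy hyz
    rw [mem_sdiff] at hx hz ⊢
    refine ⟨hy, fun hyI => hx.2 ?_⟩
    apply h a haI y hyI x hx.1 _ hxy
    apply lt_of_le_of_ne (hmin x hx.1)
    rintro rfl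
    exact hx.2 haI
  · exact h

lemma Cyc.con (hc : Cyc B S) (hmin : ∀ x ∈ S, a ≤ x) (hI : I ∈ B) (haI : a ∈ I)
    (hIS : I ⊆ S) : Cyc (con B I) (S \ I) := by
  have hconv := hc.compl_conv hmin hI haI hIS
  intro K hKS hKne
  have hKS' : K ⊆ S := hKS.trans sdiff_subset
  have hdisj : Disjoint K I := disjoint_of_subset_left hKS sdiff_disjoint
  have hKI : K ∪ I ⊆ S := union_subset hKS' hIS
  rw [mem_con]
  constructor
  · rintro ⟨_, _, h3 | h3⟩
    · rcases (hc K hKS' hKne).1 h3 with h4 | h4
      · left
        intro x hx z hz y hy hxy hyz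
        exact h4 x hx z hz y (sdiff_subset hy) hxy hyz
      · right
        intro x hx z hz y hy hxy hyz
        rw [mem_sdiff] at hx hz hy ⊢
        refine ⟨mem_sdiff.2 hy, ?_⟩
        exact (mem_sdiff.1 (h4 x (mem_sdiff.2 ⟨(mem_sdiff.1 hx.1).1, hx.2⟩) z
          (mem_sdiff.2 ⟨(mem_sdiff.1 hz.1).1, hz.2⟩) y hy.1 hxy hyz)).2
    · rcases (hc (K ∪ I) hKI (hKne.mono subset_union_left)).1 h3 with h4 | h4
      · left
        intro x hx z hz y hy hxy hyz
        rw [mem_sdiff] at hy
        have := h4 x (mem_union_left _ hx) z (mem_union_left _ hz) y hy.1 hxy hyz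
        rcases mem_union.1 this with h5 | h5
        · exact h5
        · exact absurd h5 hy.2
      · right
        intro x hx z hz y hy hxy hyz
        rw [mem_sdiff, mem_sdiff] at hx hz
        rw [mem_sdiff] at hy ⊢
        refine ⟨mem_sdiff.2 hy, ?_⟩
        have h5 := h4 x (mem_sdiff.2 ⟨hx.1.1, fun h => ?_⟩) z (mem_sdiff.2 ⟨hz.1.1, fun h => ?_⟩)
          y hy.1 hxy hyz
        · rw [mem_sdiff, mem_union] at h5
          tauto
        · rw [mem_union] at h
          tauto
        · rw [mem_union] at h
          tauto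
  · intro h3
    refine ⟨hKne, hdisj, ?_⟩
    rcases h3 with h3 | h3
    · left
      rw [hc K hKS' hKne]
      left
      intro x hx z hz y hy hxy hyz
      exact h3 x hx z hz y (hconv x (hKS hx) z (hKS hz) y hy hxy hyz) hxy hyz
    · right
      rw [hc (K ∪ I) hKI (hKne.mono subset_union_left)]
      right
      have e : S \ (K ∪ I) = (S \ I) \ K := by
        ext x
        simp only [mem_sdiff, mem_union]
        tauto
      rw [e]
      intro x hx z hz y hy hxy hyz
      exact h3 x hx z hz y (hconv x (mem_sdiff.1 hx).1 z (mem_sdiff.1 hz).1 y hy hxy hyz) hxy hyz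

lemma Cyc.chord (hc : Cyc B S) (hmin : ∀ x ∈ S, a ≤ x) (haS : a ∈ S) :
    Chord B (S.erase a) := by
  intro K hK hKS k hk
  have hKS' : K ⊆ S := hKS.trans (erase_subset _ _)
  have hconv : Conv S K := by
    rcases (hc K hKS' (hk.mono (filter_subset _ _))).1 hK with h | h
    · exact h
    · intro x hx z hz y hy hxy hyz
      by_contra hyK
      have h1 := h a (mem_sdiff.2 ⟨haS, fun h => (mem_erase.1 (hKS h)).1 rfl⟩) y
        (mem_sdiff.2 ⟨hy, hyK⟩) x (hKS' hx)
        (lt_of_le_of_ne (hmin x (hKS' hx)) (Ne.symm (mem_erase.1 (hKS hx)).1)) hxy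
      exact (mem_sdiff.1 h1).2 hx
  rw [hc _ ((filter_subset _ _).trans hKS') hk]
  left
  intro x hx z hz y hy hxy hyz
  rw [mem_filter] at hx hz ⊢
  exact ⟨hconv x hx.1 z hz.1 y hy hxy hyz, hx.2.trans hxy⟩

theorem gp_cyc : ∀ (n : ℕ) (U : Finset (Fin m)) (B : Finset (Finset (Fin m)))
    (S : Finset (Fin m)), S.card ≤ n → IsB U B → S ⊆ U → Cyc B S → S.Nonempty →
    GP (S.card - 1) (F B S) := by
  intro n
  induction n with
  | zero =>
    intro U B S hn _ _ _ hne
    have : S = ∅ := card_eq_zero.1 (Nat.le_zero.1 hn)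
    subst this
    simp at hne
  | succ n ih =>
    intro U B S hn h hS hc hne
    obtain ⟨a, haS, hmin⟩ := Finset.exists_min_image S id hne
    simp only [id] at hmin
    have hcard : (S.erase a).card + 1 = S.card := card_erase_add_one haS
    have hSB : S ∈ B := by
      rw [hc S Subset.rfl hne]
      left
      intro x hx z hz y hy _ _
      exact hy
    rcases (S.erase a).eq_empty_or_nonempty with hT | hT
    · have : S = {a} := by
        rw [← insert_erase haS, hT]; simp
      rw [this, F_singleton h (hS haS)]
      simpa using GP_one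
    · have hch := hc.chord hmin haS
      have hTB : S.erase a ∈ B := by
        rw [hc _ (erase_subset _ _) hT]
        right
        intro x hx z hz y hy hxy hyz
        rw [mem_sdiff, mem_erase] at hx hz
        have hx2 : x = a := by tauto
        have hz2 : z = a := by tauto
        subst hx2
        subst hz2
        exact absurd (hxy.trans hyz) (lt_irrefl _)
      apply step h hS hSB haS hTB
      · have := gp_chord _ U B (S.erase a) le_rfl h ((erase_subset _ _).trans hS) hch
        rw [cc_of_mem h hTB] at this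
        have e : (S.erase a).card - 1 = S.card - 2 := by omega
        rwa [e] at this
      · intro I hI haI hlt
        have hIc := card_lt_card hlt
        have hconv := hc.compl_conv hmin hI haI hlt.1
        refine ⟨?_, ?_, ?_⟩
        · have hIU : I.erase a ⊆ U := (erase_subset _ _).trans (hlt.1.trans hS)
          have hu : I.erase a = (I.erase a).filter (fun x => ∀ y ∈ S \ I, x < y) ∪
            (I.erase a).filter (fun x => ¬ ∀ y ∈ S \ I, x < y) :=
            (filter_union_filter_not_eq _ _).symm
          apply cc_le_two h hIU hu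
          · intro hne1
            rw [hc _ ((filter_subset _ _).trans ((erase_subset _ _).trans hlt.1)) hne1]
            left
            intro x hx z hz y hy hxy hyz
            rw [mem_filter, mem_erase] at hx hz ⊢
            have hyI : y ∈ I := by
              by_contra hyI
              exact absurd hyz (not_lt.2 (hz.2 y (mem_sdiff.2 ⟨hy, hyI⟩)).le)
            refine ⟨⟨?_, hyI⟩, fun w hw => hyz.trans (hz.2 w hw)⟩
            rintro rfl
            exact absurd (hmin x (hlt.1 hx.1.2)) (not_le.2 hxy)
          · intro hne1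
            rw [hc _ ((filter_subset _ _).trans ((erase_subset _ _).trans hlt.1)) hne1]
            left
            intro x hx z hz y hy hxy hyz
            rw [mem_filter, mem_erase] at hx hz ⊢
            have hx3 := hx.2
            push Not at hx3
            obtain ⟨w, hw, hwx⟩ := hx3
            have hwx2 : w < x := by
              apply lt_of_le_of_ne hwx
              rintro rfl
              exact (mem_sdiff.1 hw).2 hx.1.2
            have hyI : y ∈ I := by
              by_contra hyI
              have := hconv w hw y (mem_sdiff.2 ⟨hy, hyI⟩) x (hlt.1 hx.1.2) hwx2 hxy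
              exact (mem_sdiff.1 this).2 hx.1.2
            refine ⟨⟨?_, hyI⟩, ?_⟩
            · rintro rfl
              exact absurd (hmin x (hlt.1 hx.1.2)) (not_le.2 hxy)
            · push Not
              exact ⟨w, hw, (hwx2.trans hxy).le⟩
        · exact gp_chord _ U B (I.erase a) le_rfl h ((erase_subset _ _).trans (hlt.1.trans hS))
            (hch.mono (erase_subset_erase _ hlt.1))
        · have e1 := card_sdiff_add_card_eq_card hlt.1
          have hIpos : 0 < I.card := card_pos.2 ⟨a, haI⟩
          have := ih (U \ I) (con B I) (S \ I) (by omega) (con_isB h hI)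
            (sdiff_subset_sdiff hS Subset.rfl) (hc.con hmin hI haI hlt.1)
            (by rw [← card_pos]; omega)
          have e : (S \ I).card - 1 = S.card - I.card - 1 := by omega
          rwa [e] at this

end Pool.Agent.KS6_69.Nesto
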