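import Pool.Agent.KS6_69.Nesto.Basic

/-!
# The defining identity and the deletion-contraction identity
-/

namespace Pool.Agent.KS6_69.Nesto

open Finset Polynomial

variable {m : ℕ}

variable {U J K S I : Finset (Fin m)} {B : Finset (Finset (Fin m))} {i j x a : Fin m}

/-- sum over the subsets of a disjoint union -/
lemma sum_powerset_union {R : Type*} [AddCommMonoid R] {S₁ S₂ : Finset (Fin m)}
    (hd : Disjoint S₁ S₂) (f : Finset (Fin m) → R) :
    ∑ J ∈ (S₁ ∪ S₂).powerset, f J = ∑ J₁ ∈ S₁.powerset, ∑ J₂ ∈ S₂.powerset, f (J₁ ∪ J₂) := by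
  rw [← sum_product']
  symm
  apply sum_nbij' (fun p => p.1 ∪ p.2) (fun J => (J ∩ S₁, J ∩ S₂))
  · rintro ⟨J₁, J₂⟩ h
    rw [mem_product, mem_powerset, mem_powerset] at h
    rw [mem_powerset]
    exact union_subset_union h.1 h.2
  · intro J hJ
    rw [mem_product, mem_powerset, mem_powerset]
    exact ⟨inter_subset_right, inter_subset_right⟩
  · rintro ⟨J₁, J₂⟩ h
    rw [mem_product, mem_powerset, mem_powerset] at h
    simp only at h ⊢
    ext1
    · simp only
      rw [union_inter_distrib_right, inter_eq_left.2 h.1,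
        disjoint_iff_inter_eq_empty.1 (disjoint_of_subset_left h.2 hd.symm), union_empty]
    · simp only
      rw [union_inter_distrib_right, inter_eq_left.2 h.2,
        disjoint_iff_inter_eq_empty.1 (disjoint_of_subset_left h.1 hd), empty_union]
  · intro J hJ
    rw [mem_powerset] at hJ
    simp only
    rw [← inter_union_distrib_left, inter_eq_left.2 hJ]
  · rintro ⟨J₁, J₂⟩ _
    rfl

/-- The identity `∑_{J ⊆ S} (X-1)^{|S|-|J|} F(J) = X^{c(S)} F(S)`. -/
lemma R_ident (h : IsB U B) : ∀ (n : ℕ) (S : Finset (Fin m)), S.card ≤ n → S ⊆ U →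
    ∑ J ∈ S.powerset, (X - 1 : ℝ[X]) ^ (S.card - J.card) * F B J = X ^ (cc B S) * F B S := by
  intro n
  induction n with
  | zero =>
    intro S hS _
    have : S = ∅ := card_eq_zero.1 (Nat.le_zero.1 hS)
    subst this
    simp [cc_empty]
  | succ n ih =>
    intro S hn hS
    rcases S.eq_empty_or_nonempty with rfl | ⟨i, hi⟩
    · simp [cc_empty]
    · have hs := sep_comp h hS hi
      have hC := comp_mem h hS hi
      set C := comp B S i with hCdef
      have hCS : C ⊆ S := comp_subset
      have hcard : (S \ C).card + C.card = S.card := card_sdiff_add_card_eq_card hCS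
      have hCpos : 0 < C.card := card_pos.2 ⟨i, hC.2⟩
      have ih2 := ih (S \ C) (by omega) (sdiff_subset.trans hS)
      have h1 : ∑ J ∈ C.powerset, (X - 1 : ℝ[X]) ^ (C.card - J.card) * F B J = X * F B C := by
        have h2 := F_conn h (hCS.trans hS) hC.1
        have h3 : C.powerset = insert C C.ssubsets := by
          ext J
          rw [mem_insert, mem_powerset, mem_ssubsets]
          constructor
          · intro h4
            rcases eq_or_ssubset_of_subset h4 with h5 | h5
            · exact Or.inl h5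
            · exact Or.inr h5
          · rintro (rfl | h5)
            · exact Subset.rfl
            · exact h5.1
        rw [h3, sum_insert (by rw [mem_ssubsets]; exact fun h => h.2 Subset.rfl)]
        have h6 : ∑ J ∈ C.ssubsets, (X - 1 : ℝ[X]) ^ (C.card - J.card) * F B J
            = (X - 1) * F B C := by
          rw [h2, mul_sum]
          apply sum_congr rfl
          intro J hJ
          rw [mem_ssubsets] at hJ
          have := card_lt_card hJ
          rw [← mul_assoc, ← pow_succ']
          congr 2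
          omega
        rw [h6]
        simp
        ring
      rw [cc_sep h hS hs, cc_of_mem h hC.1, F_sep h hS hs]
      conv_lhs => rw [hs.union]
      rw [sum_powerset_union hs.disj]
      have h4 : ∀ J₁ ∈ C.powerset, ∀ J₂ ∈ (S \ C).powerset,
          (X - 1 : ℝ[X]) ^ ((C ∪ S \ C).card - (J₁ ∪ J₂).card) * F B (J₁ ∪ J₂) =
          ((X - 1) ^ (C.card - J₁.card) * F B J₁) *
            ((X - 1) ^ ((S \ C).card - J₂.card) * F B J₂) := by
        intro J₁ hJ₁ J₂ hJ₂
        rw [mem_powerset] at hJ₁ hJ₂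
        have hs2 : Sep B (J₁ ∪ J₂) J₁ J₂ := hs.mono rfl hJ₁ hJ₂
        have hsub : J₁ ∪ J₂ ⊆ U := by
          apply (union_subset_union hJ₁ hJ₂).trans
          rw [← hs.union]
          exact hS
        rw [F_sep h hsub hs2, card_union_of_disjoint hs.disj, card_union_of_disjoint hs2.disj]
        have e1 := card_le_card hJ₁
        have e2 := card_le_card hJ₂
        have e3 : C.card + (S \ C).card - (J₁.card + J₂.card) =
          (C.card - J₁.card) + ((S \ C).card - J₂.card) := by omega
        rw [e3, pow_add]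
        ring
      rw [sum_congr rfl (fun J₁ h1 => sum_congr rfl (h4 J₁ h1))]
      rw [← sum_mul_sum, h1, ih2]
      ring

/-- contraction of `B` by `I`. -/
def con (B : Finset (Finset (Fin m))) (I : Finset (Fin m)) : Finset (Finset (Fin m)) :=
  (univ : Finset (Finset (Fin m))).filter
    (fun K => K.Nonempty ∧ Disjoint K I ∧ (K ∈ B ∨ K ∪ I ∈ B))

lemma mem_con : K ∈ con B I ↔ K.Nonempty ∧ Disjoint K I ∧ (K ∈ B ∨ K ∪ I ∈ B) := by
  simp [con]

lemma con_isB (h : IsB U B) (hI : I ∈ B) : IsB (U \ I) (con B I) := by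
  obtain ⟨a, ha⟩ := h.nonempty I hI
  refine ⟨?_, ?_, ?_⟩
  · intro K hK
    exact (mem_con.1 hK).1
  · intro K hK L hL hKL
    rw [mem_con] at hK hL ⊢
    obtain ⟨h1, h2, h3⟩ := hK
    obtain ⟨h4, h5, h6⟩ := hL
    refine ⟨h1.mono subset_union_left, disjoint_union_left.2 ⟨h2, h5⟩, ?_⟩
    obtain ⟨x, hx⟩ := hKL
    rw [mem_inter] at hx
    rcases h3 with h3 | h3 <;> rcases h6 with h6 | h6
    · left
      exact h.union _ h3 _ h6 ⟨x, mem_inter.2 hx⟩
    · right
      rw [union_assoc]
      exact h.union _ h3 _ h6 ⟨x, mem_inter.2 ⟨hx.1, mem_union_left _ hx.2⟩⟩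
    · right
      rw [union_right_comm]
      exact h.union _ h3 _ h6 ⟨x, mem_inter.2 ⟨mem_union_left _ hx.1, hx.2⟩⟩
    · right
      have : K ∪ L ∪ I = (K ∪ I) ∪ (L ∪ I) := by
        ext y
        simp only [mem_union]
        tauto
      rw [this]
      exact h.union _ h3 _ h6 ⟨x, mem_inter.2 ⟨mem_union_left _ hx.1, mem_union_left _ hx.2⟩⟩
  · intro i hi
    rw [mem_sdiff] at hi
    rw [mem_con]
    refine ⟨singleton_nonempty i, ?_, Or.inl (h.single i hi.1)⟩
    rw [disjoint_singleton_left]
    exact hi.2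

/-- Structure of the contraction by `I` inside `S`: `C` is the component of `I` in `S`. -/
lemma con_sep (h : IsB U B) (hS : S ⊆ U) (hI : I ∈ B) (hIS : I ⊆ S) (ha : a ∈ I) :
    Sep (con B I) (S \ I) (comp B S a \ I) (S \ comp B S a) := by
  have haS := hIS ha
  have hIC : I ⊆ comp B S a := subset_comp hI hIS ha
  refine ⟨?_, ?_, ?_⟩
  · ext x
    simp only [mem_union, mem_sdiff]
    constructor
    · rintro ⟨h1, h2⟩
      by_cases h3 : x ∈ comp B S a
      · exact Or.inl ⟨h3, h2⟩
      · exact Or.inr ⟨h1, h3⟩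
    · rintro (⟨h1, h2⟩ | ⟨h1, h2⟩)
      · exact ⟨comp_subset h1, h2⟩
      · exact ⟨h1, fun h3 => h2 (hIC h3)⟩
  · exact disjoint_of_subset_left sdiff_subset disjoint_sdiff
  · intro K hK hKS
    rw [mem_con] at hK
    obtain ⟨h1, h2, h3⟩ := hK
    have hKS2 : K ⊆ S := hKS.trans sdiff_subset
    rcases h3 with h3 | h3
    · rcases (sep_comp h hS haS).sep K h3 hKS2 with h4 | h4
      · left
        exact subset_sdiff.2 ⟨h4, h2⟩
      · right
        exact h4
    · left
      have h5 : K ∪ I ⊆ comp B S a :=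
        subset_comp h3 (union_subset hKS2 hIS) (mem_union_right _ ha)
      exact subset_sdiff.2 ⟨subset_union_left.trans h5, h2⟩

/-- Away from the component, contraction changes nothing. -/
lemma con_away (hIS : I ⊆ S) (ha : a ∈ I) :
    ∀ K ⊆ S \ comp B S a, K ∈ con B I ↔ (K.Nonempty ∧ Disjoint K I ∧ K ∈ B) := by
  intro K hK
  rw [mem_con]
  constructor
  · rintro ⟨h1, h2, h3 | h3⟩
    · exact ⟨h1, h2, h3⟩
    · exfalso
      have h5 : K ∪ I ⊆ comp B S a :=
        subset_comp h3 (union_subset (hK.trans sdiff_subset) hIS) (mem_union_right _ ha)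
      obtain ⟨x, hx⟩ := h1
      exact (mem_sdiff.1 (hK hx)).2 (h5 (mem_union_left _ hx))
  · rintro ⟨h1, h2, h3⟩
    exact ⟨h1, h2, Or.inl h3⟩

lemma con_away' (h : IsB U B) (hI : I ∈ B) (hIS : I ⊆ S) (ha : a ∈ I) :
    ∀ K ⊆ S \ comp B S a, K ∈ con B I ↔ K ∈ B := by
  intro K hK
  rw [con_away hIS ha K hK]
  constructor
  · rintro ⟨_, _, h3⟩
    exact h3
  · intro h3
    refine ⟨h.nonempty K h3, ?_, h3⟩
    have hIC : I ⊆ comp B S a := subset_comp hI hIS ha
    exact disjoint_of_subset_left hK (disjoint_of_subset_right hIC sdiff_disjoint)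

lemma cc_con_lt (h : IsB U B) (hS : S ⊆ U) (hI : I ∈ B) (hIS : I ⊆ S) (ha : a ∈ I)
    (hne : I ≠ comp B S a) : cc (con B I) (S \ I) = cc B S := by
  have haS := hIS ha
  have hIC : I ⊆ comp B S a := subset_comp hI hIS ha
  have hc := con_isB h hI
  have hsub : S \ I ⊆ U \ I := sdiff_subset_sdiff hS Subset.rfl
  rw [cc_sep hc hsub (con_sep h hS hI hIS ha), cc_sep h hS (sep_comp h hS haS),
    cc_of_mem h (comp_mem h hS haS).1, cc_congr (con_away' h hI hIS ha), cc_of_mem hc]
  rw [mem_con]
  have hlt : I ⊂ comp B S a := lt_of_le_of_ne hIC hne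
  obtain ⟨x, hx1, hx2⟩ := exists_of_ssubset hlt
  refine ⟨⟨x, mem_sdiff.2 ⟨hx1, hx2⟩⟩, sdiff_disjoint, Or.inr ?_⟩
  rw [sdiff_union_of_subset hIC]
  exact (comp_mem h hS haS).1

lemma cc_con_eq (h : IsB U B) (hS : S ⊆ U) (haS : a ∈ S) :
    cc (con B (comp B S a)) (S \ comp B S a) + 1 = cc B S := by
  have hC := comp_mem h hS haS
  rw [cc_sep h hS (sep_comp h hS haS), cc_of_mem h hC.1,
    cc_congr (con_away' h hC.1 comp_subset hC.2)]
  ring

lemma F_con_eq (h : IsB U B) (hS : S ⊆ U) (haS : a ∈ S) :
    F (con B (comp B S a)) (S \ comp B S a) = F B (S \ comp B S a) := by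
  have hC := comp_mem h hS haS
  rw [F_congr (con_away' h hC.1 comp_subset hC.2)]

/-- deleting `a` -/
lemma sep_erase (h : IsB U B) (hS : S ⊆ U) (haS : a ∈ S) :
    Sep B (S.erase a) ((comp B S a).erase a) (S \ comp B S a) := by
  apply (sep_comp h hS haS).mono
  · ext x
    simp only [mem_erase, mem_union, mem_sdiff]
    constructor
    · rintro ⟨h1, h2⟩
      by_cases h3 : x ∈ comp B S a
      · exact Or.inl ⟨h1, h3⟩
      · exact Or.inr ⟨h2, h3⟩
    · rintro (⟨h1, h2⟩ | ⟨h1, h2⟩)
      · exact ⟨h1, comp_subset h2⟩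
      · refine ⟨?_, h1⟩
        rintro rfl
        exact h2 (comp_mem h hS haS).2
  · exact erase_subset _ _
  · exact Subset.rfl

/-- `τ_k = X + X^2 + ... + X^k`. -/
noncomputable def tau (k : ℕ) : ℝ[X] := X * ∑ i ∈ range k, X ^ i

lemma tau_mul (k : ℕ) : tau k * (X - 1) = X * (X ^ k - 1) := by
  unfold tau
  rw [mul_assoc, geom_sum_mul]

/-- The correction term. -/
noncomputable def G (B : Finset (Finset (Fin m))) (a : Fin m) (S : Finset (Fin m)) : ℝ[X] :=
  ∑ I ∈ B.filter (fun I => a ∈ I ∧ I ⊆ S),
    tau (cc B (I.erase a)) * F (con B I) (S \ I) * F B (I.erase a)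

lemma sum_inner {T : Finset (Fin m)} (haT : a ∉ T) (haI : a ∈ I) (hI : I ⊆ insert a T)
    (f : Finset (Fin m) → ℝ[X]) :
    ∑ J ∈ T.powerset.filter (fun J => I ⊆ insert a J),
      (X - 1 : ℝ[X]) ^ (T.card - J.card) * f (insert a J \ I) =
    ∑ L ∈ (insert a T \ I).powerset, (X - 1 : ℝ[X]) ^ ((insert a T \ I).card - L.card) * f L := by
  have key : ∀ J, J ⊆ T → I ⊆ insert a J → (insert a J \ I ∪ I).erase a = J := by
    intro J hJ hIJ
    rw [sdiff_union_of_subset hIJ, erase_insert]
    exact fun h => haT (hJ h)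
  apply sum_nbij' (fun J => insert a J \ I) (fun L => (L ∪ I).erase a)
  · intro J hJ
    rw [mem_filter, mem_powerset] at hJ
    rw [mem_powerset]
    exact sdiff_subset_sdiff (insert_subset_insert a hJ.1) Subset.rfl
  · intro L hL
    rw [mem_powerset] at hL
    rw [mem_filter, mem_powerset]
    have h1 : L ∪ I ⊆ insert a T := union_subset (hL.trans sdiff_subset) hI
    refine ⟨?_, ?_⟩
    · intro x hx
      rw [mem_erase] at hx
      rcases mem_insert.1 (h1 hx.2) with h2 | h2
      · exact absurd h2 hx.1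
      · exact h2
    · rw [insert_erase (mem_union_right _ haI)]
      exact subset_union_right
  · intro J hJ
    rw [mem_filter, mem_powerset] at hJ
    exact key J hJ.1 hJ.2
  · intro L hL
    rw [mem_powerset] at hL
    rw [insert_erase (mem_union_right _ haI), union_sdiff_right]
    rw [Finset.sdiff_eq_self_iff_disjoint]
    exact disjoint_of_subset_left hL sdiff_disjoint
  · intro J hJ
    rw [mem_filter, mem_powerset] at hJ
    congr 2
    have haJ : a ∉ J := fun h => haT (hJ.1 h)
    have e1 := card_sdiff_add_card_eq_card hI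
    have e2 := card_sdiff_add_card_eq_card hJ.2
    rw [card_insert_of_notMem haT] at e1
    rw [card_insert_of_notMem haJ] at e2
    have e3 := card_le_card hJ.1
    omega

/-- summation of `G`. -/
lemma sum_G (h : IsB U B) (haU : a ∈ U) {T : Finset (Fin m)} (hT : T ⊆ U) (haT : a ∉ T) :
    ∑ J ∈ T.powerset, (X - 1 : ℝ[X]) ^ (T.card - J.card) * G B a (insert a J) =
    X ^ (cc B (insert a T)) * G B a (insert a T) -
      X ^ (cc B (insert a T)) * (X ^ (cc B ((comp B (insert a T) a).erase a)) - 1) * F B T := by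
  set S := insert a T with hSdef
  have hS : S ⊆ U := insert_subset haU hT
  have haS : a ∈ S := mem_insert_self a T
  have hC := comp_mem h hS haS
  have hCS : comp B S a ⊆ S := comp_subset
  unfold G
  simp_rw [mul_sum]
  rw [sum_comm' (s' := fun I => T.powerset.filter (fun J => I ⊆ insert a J))
    (t' := B.filter (fun I => a ∈ I ∧ I ⊆ S))]
  swap
  · intro J I
    rw [mem_filter, mem_filter, mem_filter, mem_powerset]
    constructor
    · rintro ⟨h1, h2, h3, h4⟩
      exact ⟨⟨h1, h4⟩, h2, h3, h4.trans (insert_subset_insert a h1)⟩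
    · rintro ⟨⟨h1, h4⟩, h2, h3, _⟩
      exact ⟨h1, h2, h3, h4⟩
  have h1 : ∀ I ∈ B.filter (fun I => a ∈ I ∧ I ⊆ S),
      ∑ J ∈ T.powerset.filter (fun J => I ⊆ insert a J), (X - 1 : ℝ[X]) ^ (T.card - J.card) *
        (tau (cc B (I.erase a)) * F (con B I) (insert a J \ I) * F B (I.erase a)) =
      X ^ (cc (con B I) (S \ I)) *
        (tau (cc B (I.erase a)) * F (con B I) (S \ I) * F B (I.erase a)) := by
    intro I hI
    rw [mem_filter] at hI
    obtain ⟨hIB, haI, hIS⟩ := hI
    have e1 := sum_inner haT haI hIS (F (con B I))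
    have e2 := R_ident (con_isB h hIB) _ (S \ I) le_rfl (sdiff_subset_sdiff hS Subset.rfl)
    rw [e2] at e1
    calc _ = (tau (cc B (I.erase a)) * F B (I.erase a)) *
        ∑ J ∈ T.powerset.filter (fun J => I ⊆ insert a J),
          (X - 1 : ℝ[X]) ^ (T.card - J.card) * F (con B I) (insert a J \ I) := by
          rw [mul_sum]
          apply sum_congr rfl
          intro J _
          ring
      _ = _ := by
          rw [e1]
          ring
  rw [sum_congr rfl h1]
  have hCm : comp B S a ∈ B.filter (fun I => a ∈ I ∧ I ⊆ S) := by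
    rw [mem_filter]
    exact ⟨hC.1, hC.2, hCS⟩
  rw [← add_sum_erase _ _ hCm]
  rw [← add_sum_erase (B.filter (fun I => a ∈ I ∧ I ⊆ S))
    (fun I => X ^ cc B S * (tau (cc B (I.erase a)) * F (con B I) (S \ I) * F B (I.erase a))) hCm]
  have h2 : ∀ I ∈ (B.filter (fun I => a ∈ I ∧ I ⊆ S)).erase (comp B S a),
      X ^ (cc (con B I) (S \ I)) *
        (tau (cc B (I.erase a)) * F (con B I) (S \ I) * F B (I.erase a)) =
      X ^ cc B S * (tau (cc B (I.erase a)) * F (con B I) (S \ I) * F B (I.erase a)) := by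
    intro I hI
    rw [mem_erase, mem_filter] at hI
    obtain ⟨hne, hIB, haI, hIS⟩ := hI
    rw [cc_con_lt h hS hIB hIS haI hne]
  rw [sum_congr rfl h2]
  have h3 := cc_con_eq h hS haS
  have h4 := F_con_eq h hS haS
  have h5 : F B T = F B ((comp B S a).erase a) * F B (S \ comp B S a) := by
    have := F_sep h ((erase_subset _ _).trans hS) (sep_erase h hS haS)
    rw [hSdef, erase_insert haT] at this
    exact this
  rw [h4, h5, ← h3]
  have h6 := tau_mul (cc B ((comp B S a).erase a))
  linear_combination (-(X ^ cc (con B (comp B S a)) (S \ comp B S a) * F B (S \ comp B S a) *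
    F B ((comp B S a).erase a))) * h6

/-- `D = F(insert a T) - F(T) - G(insert a T)` vanishes. -/
theorem main_ident (h : IsB U B) (haU : a ∈ U) : ∀ (n : ℕ) (T : Finset (Fin m)), T.card ≤ n →
    T ⊆ U → a ∉ T → F B (insert a T) = F B T + G B a (insert a T) := by
  intro n
  induction n using Nat.strong_induction_on with
  | _ n ih =>
    intro T hn hT haT
    have hS : insert a T ⊆ U := insert_subset haU hT
    have haS : a ∈ insert a T := mem_insert_self a T
    have r1 := R_ident h _ (insert a T) le_rfl hS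
    have r2 := R_ident h _ T le_rfl hT
    have r3 := sum_G h haU hT haT
    rw [sum_powerset_insert haT] at r1
    have e1 : ∑ J ∈ T.powerset, (X - 1 : ℝ[X]) ^ ((insert a T).card - J.card) * F B J =
        (X - 1) * ∑ J ∈ T.powerset, (X - 1 : ℝ[X]) ^ (T.card - J.card) * F B J := by
      rw [mul_sum]
      apply sum_congr rfl
      intro J hJ
      rw [mem_powerset] at hJ
      have := card_le_card hJ
      rw [card_insert_of_notMem haT, ← mul_assoc, ← pow_succ']
      congr 2
      omega
    have e2 : ∑ J ∈ T.powerset, (X - 1 : ℝ[X]) ^ ((insert a T).card - (insert a J).card) *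
        F B (insert a J) =
        ∑ J ∈ T.powerset, (X - 1 : ℝ[X]) ^ (T.card - J.card) * F B (insert a J) := by
      apply sum_congr rfl
      intro J hJ
      rw [mem_powerset] at hJ
      rw [card_insert_of_notMem haT, card_insert_of_notMem (fun h => haT (hJ h))]
      congr 2
      omega
    rw [e1, e2, r2] at r1
    have e3 : cc B T + 1 = cc B (insert a T) + cc B ((comp B (insert a T) a).erase a) := by
      have h1 := cc_sep h ((erase_subset _ _).trans hS) (sep_erase h hS haS)
      rw [erase_insert haT] at h1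
      have h2 := cc_sep h hS (sep_comp h hS haS)
      rw [cc_of_mem h (comp_mem h hS haS).1] at h2
      omega
    set k := cc B ((comp B (insert a T) a).erase a) with hk
    have e4 : (X : ℝ[X]) * X ^ cc B T = X ^ cc B (insert a T) * X ^ k := by
      rw [← pow_succ', e3, pow_add]
    -- D satisfies the homogeneous identity
    have e5 : ∑ J ∈ T.powerset, (X - 1 : ℝ[X]) ^ (T.card - J.card) *
        (F B (insert a J) - F B J - G B a (insert a J)) =
        X ^ cc B (insert a T) * (F B (insert a T) - F B T - G B a (insert a T)) := by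
      have : ∑ J ∈ T.powerset, (X - 1 : ℝ[X]) ^ (T.card - J.card) *
        (F B (insert a J) - F B J - G B a (insert a J)) =
        ∑ J ∈ T.powerset, (X - 1 : ℝ[X]) ^ (T.card - J.card) * F B (insert a J) -
        ∑ J ∈ T.powerset, (X - 1 : ℝ[X]) ^ (T.card - J.card) * F B J -
        ∑ J ∈ T.powerset, (X - 1 : ℝ[X]) ^ (T.card - J.card) * G B a (insert a J) := by
        rw [← sum_sub_distrib, ← sum_sub_distrib]
        apply sum_congr rfl
        intro J _
        ring
      rw [this, r3, r2]
      linear_combination r1 - F B T * e4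
    have e6 : T.powerset = insert T T.ssubsets := by
      ext J
      rw [mem_insert, mem_powerset, mem_ssubsets]
      constructor
      · intro h4
        rcases eq_or_ssubset_of_subset h4 with h5 | h5
        · exact Or.inl h5
        · exact Or.inr h5
      · rintro (rfl | h5)
        · exact Subset.rfl
        · exact h5.1
    rw [e6, sum_insert (by rw [mem_ssubsets]; exact fun h => h.2 Subset.rfl)] at e5
    have e7 : ∑ J ∈ T.ssubsets, (X - 1 : ℝ[X]) ^ (T.card - J.card) *
        (F B (insert a J) - F B J - G B a (insert a J)) = 0 := by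
      apply sum_eq_zero
      intro J hJ
      rw [mem_ssubsets] at hJ
      have hlt := card_lt_card hJ
      rw [ih J.card (by omega) J le_rfl (hJ.1.trans hT) (fun h => haT (hJ.1 h))]
      ring
    rw [e7] at e5
    have e8 : (X ^ cc B (insert a T) - 1 : ℝ[X]) *
        (F B (insert a T) - F B T - G B a (insert a T)) = 0 := by
      simp only [Nat.sub_self, pow_zero, one_mul, add_zero] at e5
      linear_combination -e5
    have e9 : (X ^ cc B (insert a T) - 1 : ℝ[X]) ≠ 0 := by
      have hpos : 0 < cc B (insert a T) := cc_pos ⟨a, haS⟩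
      exact X_pow_sub_C_ne_zero hpos 1
    have e10 := (mul_eq_zero.1 e8).resolve_left e9
    linear_combination e10

end Pool.Agent.KS6_69.Nesto
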