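import Pool.Agent.KS6_69.Nesto.Gamma

/-!
# Faces of nestohedra
-/

namespace Pool.Agent.KS6_69.Nesto

open Finset Polynomial

open scoped Pointwise

variable {m : ℕ}

/-- The simplex `Δ_I = conv {e_i : i ∈ I}`. -/
def simplex (I : Finset (Fin m)) : Set (Fin m → ℝ) :=
  convexHull ℝ ((fun i => Pi.single i (1 : ℝ)) '' (I : Set (Fin m)))

/-- The nestohedron `P_B`, the Minkowski sum of the simplices `Δ_I`, `I ∈ B`. -/
def nestohedron (B : Finset (Finset (Fin m))) : Set (Fin m → ℝ) := ∑ I ∈ B, simplex I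

/-- The number of nonempty `i`-dimensional (exposed) faces of `P`. -/
noncomputable def faceNum (P : Set (Fin m → ℝ)) (i : ℕ) : ℕ :=
  {Q : Set (Fin m → ℝ) | Q.Nonempty ∧ IsExposed ℝ P Q ∧
    Module.finrank ℝ (vectorSpan ℝ Q) = i}.ncard

/-- The `h`-polynomial `∑_i f_i (x-1)^i` of an `n`-dimensional polytope. -/
noncomputable def hPoly (n : ℕ) (P : Set (Fin m → ℝ)) : ℝ[X] :=
  ∑ i ∈ range (n + 1), C (faceNum P i : ℝ) * (X - 1) ^ i

variable {U J K S I : Finset (Fin m)} {B : Finset (Finset (Fin m))} {i j a : Fin m}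

lemma mem_simplex {x : Fin m → ℝ} :
    x ∈ simplex I ↔ (∀ i, 0 ≤ x i) ∧ ∑ i, x i = 1 ∧ ∀ i ∉ I, x i = 0 := by
  constructor
  · intro hx
    have hconv : Convex ℝ {x : Fin m → ℝ | (∀ i, 0 ≤ x i) ∧ ∑ i, x i = 1 ∧ ∀ i ∉ I, x i = 0} := by
      intro x hx y hy s t hs ht hst
      simp only [Set.mem_ofPred_eq] at hx hy ⊢
      refine ⟨fun i => ?_, ?_, fun i hi => ?_⟩
      · simp only [Pi.add_apply, Pi.smul_apply, smul_eq_mul]
        exact add_nonneg (mul_nonneg hs (hx.1 i)) (mul_nonneg ht (hy.1 i))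
      · simp only [Pi.add_apply, Pi.smul_apply, smul_eq_mul]
        rw [sum_add_distrib, ← mul_sum, ← mul_sum, hx.2.1, hy.2.1]
        linarith
      · simp only [Pi.add_apply, Pi.smul_apply, smul_eq_mul]
        rw [hx.2.2 i hi, hy.2.2 i hi]
        ring
    apply convexHull_min _ hconv hx
    rintro _ ⟨i, hi, rfl⟩
    simp only [Set.mem_ofPred_eq]
    refine ⟨fun j => ?_, ?_, fun j hj => ?_⟩
    · rw [Pi.single_apply]; split_ifs <;> norm_num
    · simp
    · rw [Pi.single_apply, if_neg]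
      rintro rfl
      exact hj hi
  · rintro ⟨h1, h2, h3⟩
    have h4 : ∑ i ∈ I, x i = 1 := by
      rw [← h2]
      apply sum_subset (subset_univ I)
      intro i _ hi
      exact h3 i hi
    have h5 : x = ∑ i ∈ I, x i • (Pi.single i (1 : ℝ) : Fin m → ℝ) := by
      funext j
      rw [Finset.sum_apply]
      simp only [Pi.smul_apply, smul_eq_mul, Pi.single_apply]
      by_cases hj : j ∈ I
      · rw [sum_eq_single j]
        · simp
        · intro b _ hb
          rw [if_neg (Ne.symm hb), mul_zero]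
        · intro h; exact absurd hj h
      · rw [h3 j hj]
        symm
        apply sum_eq_zero
        intro i hi
        rw [if_neg, mul_zero]
        rintro rfl
        exact hj hi
    rw [h5]
    apply (convex_convexHull ℝ _).sum_mem (fun i _ => h1 i) h4
    intro i hi
    exact subset_convexHull ℝ _ ⟨i, hi, rfl⟩

lemma single_mem_simplex (hi : i ∈ I) : (Pi.single i (1 : ℝ) : Fin m → ℝ) ∈ simplex I :=
  subset_convexHull ℝ _ ⟨i, hi, rfl⟩

lemma mem_nesto {x : Fin m → ℝ} : x ∈ nestohedron B ↔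
    ∃ y : Finset (Fin m) → (Fin m → ℝ), (∀ I ∈ B, y I ∈ simplex I) ∧ ∑ I ∈ B, y I = x := by
  unfold nestohedron
  rw [Set.mem_finsetSum]
  constructor
  · rintro ⟨g, hg, hx⟩
    exact ⟨g, fun I hI => hg hI, hx⟩
  · rintro ⟨g, hg, hx⟩
    exact ⟨g, fun {I} hI => hg I hI, hx⟩

/-- The linear functional with coefficients `c`. -/
def dot (c x : Fin m → ℝ) : ℝ := ∑ i, c i * x i

lemma dot_sum (c : Fin m → ℝ) (y : Finset (Fin m) → (Fin m → ℝ)) :
    dot c (∑ I ∈ B, y I) = ∑ I ∈ B, dot c (y I) := by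
  unfold dot
  rw [sum_comm]
  apply sum_congr rfl
  intro i _
  rw [Finset.sum_apply, mul_sum]

/-- The face of `P_B` where `c` is maximal. -/
def face (B : Finset (Finset (Fin m))) (c : Fin m → ℝ) : Set (Fin m → ℝ) :=
  {x | x ∈ nestohedron B ∧ ∀ y ∈ nestohedron B, dot c y ≤ dot c x}

lemma dot_simplex {c x : Fin m → ℝ} (hx : x ∈ simplex I) (r : ℝ) :
    dot c x = r - ∑ i, (r - c i) * x i := by
  rw [mem_simplex] at hx
  unfold dot
  have : ∑ i, (r - c i) * x i = r * ∑ i, x i - ∑ i, c i * x i := by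
    rw [mul_sum, ← sum_sub_distrib]
    apply sum_congr rfl
    intro i _
    ring
  rw [this, hx.2.1]
  ring

lemma dot_le {c x : Fin m → ℝ} (hx : x ∈ simplex I) {a : Fin m}
    (ha : ∀ j ∈ I, c j ≤ c a) : dot c x ≤ c a := by
  rw [dot_simplex hx (c a)]
  rw [mem_simplex] at hx
  have : 0 ≤ ∑ i, (c a - c i) * x i := by
    apply sum_nonneg
    intro i _
    by_cases hi : i ∈ I
    · exact mul_nonneg (by linarith [ha i hi]) (hx.1 i)
    · rw [hx.2.2 i hi, mul_zero]
  linarith

lemma dot_eq_of {c x : Fin m → ℝ} (hx : x ∈ simplex I) {a : Fin m} (haI : a ∈ I)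
    (ha : ∀ j ∈ I, c j ≤ c a) (hs : ∀ i ∈ I, x i ≠ 0 → ∀ j ∈ I, c j ≤ c i) :
    dot c x = c a := by
  rw [dot_simplex hx (c a)]
  have : ∑ i, (c a - c i) * x i = 0 := by
    apply sum_eq_zero
    intro i _
    by_cases hi : i ∈ I
    · by_cases h0 : x i = 0
      · rw [h0, mul_zero]
      · have := hs i hi h0 a haI
        have := ha i hi
        have : c a - c i = 0 := by linarith
        rw [this, zero_mul]
    · rw [(mem_simplex.1 hx).2.2 i hi, mul_zero]
  rw [this, sub_zero]

lemma of_dot_eq {c x : Fin m → ℝ} (hx : x ∈ simplex I) {a : Fin m}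
    (ha : ∀ j ∈ I, c j ≤ c a) (he : dot c x = c a) :
    ∀ i ∈ I, x i ≠ 0 → ∀ j ∈ I, c j ≤ c i := by
  rw [dot_simplex hx (c a)] at he
  have h0 : ∑ i, (c a - c i) * x i = 0 := by linarith
  rw [sum_eq_zero_iff_of_nonneg] at h0
  · intro i hi hxi j hj
    have := h0 i (mem_univ i)
    have h2 : c a - c i = 0 := (mul_eq_zero.1 this).resolve_right hxi
    linarith [ha j hj]
  · intro i _
    by_cases hi : i ∈ I
    · exact mul_nonneg (by linarith [ha i hi]) ((mem_simplex.1 hx).1 i)
    · rw [(mem_simplex.1 hx).2.2 i hi, mul_zero]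

variable [Nonempty (Fin m)]

/-- choice of a maximiser -/
lemma exists_top (h : IsB U B) (c : Fin m → ℝ) : ∃ t : Finset (Fin m) → Fin m,
    ∀ I ∈ B, t I ∈ I ∧ ∀ j ∈ I, c j ≤ c (t I) := by
  have : ∀ I : Finset (Fin m), ∃ a : Fin m, I ∈ B → (a ∈ I ∧ ∀ j ∈ I, c j ≤ c a) := by
    intro I
    by_cases hI : I ∈ B
    · obtain ⟨a, ha, ha2⟩ := Finset.exists_max_image I c (h.nonempty I hI)
      exact ⟨a, fun _ => ⟨ha, ha2⟩⟩
    · exact ⟨Classical.arbitrary (Fin m), fun h => absurd h hI⟩
  choose t ht using this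
  exact ⟨t, fun I hI => ht I hI⟩

lemma face_supp (h : IsB U B) {c x : Fin m → ℝ} (hx : x ∈ face B c)
    {y : Finset (Fin m) → (Fin m → ℝ)} (hy : ∀ I ∈ B, y I ∈ simplex I) (hyx : ∑ I ∈ B, y I = x) :
    ∀ I ∈ B, ∀ i ∈ I, y I i ≠ 0 → ∀ j ∈ I, c j ≤ c i := by
  obtain ⟨t, ht⟩ := exists_top h c
  have h1 := hx.2 (∑ I ∈ B, Pi.single (t I) (1 : ℝ)) (mem_nesto.2
    ⟨fun I => Pi.single (t I) (1 : ℝ), fun I hI => single_mem_simplex (ht I hI).1, rfl⟩)
  rw [← hyx, dot_sum, dot_sum] at h1
  have h2 : ∀ I, dot c (Pi.single (t I) (1 : ℝ)) = c (t I) := by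
    intro I
    unfold dot
    rw [sum_eq_single (t I)]
    · simp
    · intro b _ hb
      rw [Pi.single_eq_of_ne hb, mul_zero]
    · simp
  simp only [h2] at h1
  have h3 : ∀ I ∈ B, dot c (y I) ≤ c (t I) := fun I hI => dot_le (hy I hI) (ht I hI).2
  have h4 : ∑ I ∈ B, dot c (y I) = ∑ I ∈ B, c (t I) := le_antisymm (sum_le_sum h3) h1
  have h5 := (sum_eq_sum_iff_of_le h3).1 h4
  intro I hI
  exact of_dot_eq (hy I hI) (ht I hI).2 (h5 I hI)

lemma mem_face_of (h : IsB U B) {c : Fin m → ℝ} {y : Finset (Fin m) → (Fin m → ℝ)}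
    (hy : ∀ I ∈ B, y I ∈ simplex I)
    (hs : ∀ I ∈ B, ∀ i ∈ I, y I i ≠ 0 → ∀ j ∈ I, c j ≤ c i) : ∑ I ∈ B, y I ∈ face B c := by
  obtain ⟨t, ht⟩ := exists_top h c
  refine ⟨mem_nesto.2 ⟨y, hy, rfl⟩, ?_⟩
  intro z hz
  obtain ⟨w, hw, rfl⟩ := mem_nesto.1 hz
  rw [dot_sum, dot_sum]
  apply sum_le_sum
  intro I hI
  rw [dot_eq_of (hy I hI) (ht I hI).1 (ht I hI).2 (hs I hI)]
  exact dot_le (hw I hI) (ht I hI).2

/-- The face attached to a face class. -/
def psi (B : Finset (Finset (Fin m))) (M : Fin m → Finset (Fin m)) : Set (Fin m → ℝ) :=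
  {x | ∃ y : Finset (Fin m) → (Fin m → ℝ),
    (∀ I ∈ B, y I ∈ simplex I ∧ ∀ i ∈ I, y I i ≠ 0 → I ⊆ M i) ∧ ∑ I ∈ B, y I = x}

lemma sub_Mc (hI : I ∈ B) (hi : i ∈ I) (c : Fin m → ℝ) :
    I ⊆ Mc B univ c i ↔ ∀ j ∈ I, c j ≤ c i := by
  unfold Mc
  rw [if_pos (mem_univ i)]
  constructor
  · intro h j hj
    exact (mem_filter.1 (comp_subset (h hj))).2
  · intro h
    apply subset_comp hI _ hi
    intro j hj
    rw [mem_filter]
    exact ⟨mem_univ j, h j hj⟩

lemma face_eq_psi (h : IsB U B) (c : Fin m → ℝ) : face B c = psi B (Mc B univ c) := by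
  ext x
  constructor
  · intro hx
    obtain ⟨y, hy, hyx⟩ := mem_nesto.1 hx.1
    refine ⟨y, fun I hI => ⟨hy I hI, fun i hi h0 => ?_⟩, hyx⟩
    rw [sub_Mc hI hi]
    exact face_supp h hx hy hyx I hI i hi h0
  · rintro ⟨y, hy, rfl⟩
    apply mem_face_of h (fun I hI => (hy I hI).1)
    intro I hI i hi h0
    rw [← sub_Mc hI hi]
    exact (hy I hI).2 i hi h0

/-- The point of `P_B` with a prescribed vertex `i` in the summand `K` and maximisers elsewhere. -/
lemma point_mem (h : IsB U B) (c : Fin m → ℝ) : ∃ z : Fin m → ℝ, z ∈ face B c ∧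
    ∀ K ∈ B, ∀ i ∈ K, (∀ j ∈ K, c j ≤ c i) → ∃ z' : Fin m → ℝ, ∃ y : Finset (Fin m) → (Fin m → ℝ),
      (∀ I ∈ B, y I ∈ simplex I) ∧ ∑ I ∈ B, y I = z' + Pi.single i 1 ∧ y K = Pi.single i 1 ∧
      z' + Pi.single i 1 ∈ face B c ∧
      ∀ j ∈ K, (∀ l ∈ K, c l ≤ c j) → z' + Pi.single j 1 ∈ face B c := by
  obtain ⟨t, ht⟩ := exists_top h c
  have key : ∀ K ∈ B, ∀ i ∈ K, (∀ j ∈ K, c j ≤ c i) →
    (∀ I ∈ B, (Function.update (fun I => (Pi.single (t I) (1 : ℝ) : Fin m → ℝ)) K
      (Pi.single i 1)) I ∈ simplex I) ∧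
    ∑ I ∈ B, (Function.update (fun I => (Pi.single (t I) (1 : ℝ) : Fin m → ℝ)) K
      (Pi.single i 1)) I ∈ face B c := by
    intro K hK i hi hmax
    have h1 : ∀ I ∈ B, (Function.update (fun I => (Pi.single (t I) (1 : ℝ) : Fin m → ℝ)) K
      (Pi.single i 1)) I ∈ simplex I := by
      intro I hI
      by_cases hIK : I = K
      · subst hIK
        rw [Function.update_self]
        exact single_mem_simplex hi
      · rw [Function.update_of_ne hIK]
        exact single_mem_simplex (ht I hI).1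
    refine ⟨h1, mem_face_of h h1 ?_⟩
    intro I hI k hk h0 j hj
    by_cases hIK : I = K
    · subst hIK
      rw [Function.update_self] at h0
      have : k = i := by
        by_contra hne
        exact h0 (Pi.single_eq_of_ne hne _)
      subst this
      exact hmax j hj
    · rw [Function.update_of_ne hIK] at h0
      have : k = t I := by
        by_contra hne
        exact h0 (Pi.single_eq_of_ne hne _)
      subst this
      exact (ht I hI).2 j hj
  refine ⟨∑ I ∈ B, Pi.single (t I) (1 : ℝ), ?_, ?_⟩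
  · apply mem_face_of h (fun I hI => single_mem_simplex (ht I hI).1)
    intro I hI k hk h0 j hj
    have : k = t I := by
      by_contra hne
      exact h0 (Pi.single_eq_of_ne hne _)
    subst this
    exact (ht I hI).2 j hj
  · intro K hK i hi hmax
    have e : ∀ j : Fin m, ∑ I ∈ B, (Function.update (fun I => (Pi.single (t I) (1 : ℝ) :
        Fin m → ℝ)) K (Pi.single j 1)) I =
        (∑ I ∈ B \ {K}, Pi.single (t I) (1 : ℝ)) + Pi.single j 1 := by
      intro j
      rw [sum_update_of_mem hK, add_comm]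
    refine ⟨∑ I ∈ B \ {K}, Pi.single (t I) (1 : ℝ), _, (key K hK i hi hmax).1, e i,
      Function.update_self _ _ _, ?_, ?_⟩
    · rw [← e i]
      exact (key K hK i hi hmax).2
    · intro j hj hmaxj
      rw [← e j]
      exact (key K hK j hj hmaxj).2

lemma psi_inj (h : IsB univ B) {c c' : Fin m → ℝ}
    (he : psi B (Mc B univ c) = psi B (Mc B univ c')) : Mc B univ c = Mc B univ c' := by
  have key : ∀ c c' : Fin m → ℝ, psi B (Mc B univ c) = psi B (Mc B univ c') →
      ∀ i, Mc B univ c i ⊆ Mc B univ c' i := by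
    intro c c' he i
    rw [← face_eq_psi h, ← face_eq_psi h] at he
    have h1 := Mc_mem h (Subset.rfl) c (mem_univ i)
    obtain ⟨z, _, hz⟩ := point_mem h c
    obtain ⟨z', y, hy, hy2, hy3, hy4, _⟩ := hz (Mc B univ c i) h1.2.1 i h1.1
      ((sub_Mc h1.2.1 h1.1 c).1 Subset.rfl)
    rw [he] at hy4
    have h2 := face_supp h hy4 hy hy2 (Mc B univ c i) h1.2.1 i h1.1 (by rw [hy3]; simp)
    exact (sub_Mc h1.2.1 h1.1 c').2 h2
  funext i
  exact Subset.antisymm (key c c' he i) (key c' c he.symm i)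

lemma psi_nonempty (h : IsB univ B) (c : Fin m → ℝ) : (psi B (Mc B univ c)).Nonempty := by
  rw [← face_eq_psi h]
  obtain ⟨z, hz, _⟩ := point_mem h c
  exact ⟨z, hz⟩

/-- Two maximisers of a member have the same class. -/
lemma Mc_same (h : IsB univ B) (hI : I ∈ B) {c : Fin m → ℝ} (hi : i ∈ I) (hj : j ∈ I)
    (hi2 : ∀ k ∈ I, c k ≤ c i) (hj2 : ∀ k ∈ I, c k ≤ c j) : Mc B univ c i = Mc B univ c j := by
  have e : c i = c j := le_antisymm (hj2 i hi) (hi2 j hj)
  unfold Mc
  rw [if_pos (mem_univ i), if_pos (mem_univ j), e]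
  symm
  apply comp_eq h (subset_univ _)
  · rw [mem_filter]; exact ⟨mem_univ i, e.le⟩
  · apply subset_comp hI _ hi hj
    intro k hk
    rw [mem_filter]
    exact ⟨mem_univ k, hj2 k hk⟩

/-- class sums -/
noncomputable def T (M : Fin m → Finset (Fin m)) :
    (Fin m → ℝ) →ₗ[ℝ] (↥(univ.image M) → ℝ) :=
  LinearMap.pi fun K => ∑ i ∈ univ.filter (fun i => M i = K.1), LinearMap.proj i

lemma T_apply (M : Fin m → Finset (Fin m)) (v : Fin m → ℝ) (K : ↥(univ.image M)) :
    T M v K = ∑ i ∈ univ.filter (fun i => M i = K.1), v i := by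
  unfold T
  rw [LinearMap.pi_apply, LinearMap.sum_apply]
  rfl

lemma T_surj (M : Fin m → Finset (Fin m)) : Function.Surjective (T M) := by
  intro w
  have hr : ∀ K : ↥(univ.image M), ∃ i, M i = K.1 := by
    intro K
    obtain ⟨i, _, hi⟩ := mem_image.1 K.2
    exact ⟨i, hi⟩
  choose r hr using hr
  refine ⟨∑ K, w K • (Pi.single (r K) 1 : Fin m → ℝ), ?_⟩
  funext L
  rw [map_sum, Finset.sum_apply, sum_eq_single L]
  · rw [map_smul, Pi.smul_apply, T_apply, sum_eq_single (r L)]
    · simp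
    · intro b _ hb
      exact Pi.single_eq_of_ne hb _
    · intro h
      exfalso
      apply h
      rw [mem_filter]
      exact ⟨mem_univ _, hr L⟩
  · intro K _ hK
    rw [map_smul, Pi.smul_apply, T_apply, sum_eq_zero]
    · simp
    · intro i hi
      rw [mem_filter] at hi
      apply Pi.single_eq_of_ne
      rintro rfl
      apply hK
      apply Subtype.ext
      rw [← hr K, hi.2]
  · intro h
    exact absurd (mem_univ L) h

lemma finrank_ker (M : Fin m → Finset (Fin m)) :
    Module.finrank ℝ (LinearMap.ker (T M)) + (univ.image M).card = m := by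
  have h1 := LinearMap.finrank_range_add_finrank_ker (T M)
  rw [LinearMap.range_eq_top.2 (T_surj M), finrank_top, Module.finrank_fintype_fun_eq_card,
    Module.finrank_fintype_fun_eq_card, Fintype.card_coe, Fintype.card_fin] at h1
  omega

lemma vectorSpan_psi (h : IsB univ B) (c : Fin m → ℝ) :
    vectorSpan ℝ (psi B (Mc B univ c)) = LinearMap.ker (T (Mc B univ c)) := by
  set M := Mc B univ c with hM
  apply le_antisymm
  · rw [vectorSpan_def, Submodule.span_le]
    have key : ∀ x ∈ psi B M, T M x = ∑ I ∈ B, T M (Pi.single ((exists_top h c).choose I) 1) := by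
      rintro x ⟨y, hy, rfl⟩
      rw [map_sum]
      apply sum_congr rfl
      intro I hI
      funext K
      have ht := (exists_top h c).choose_spec I hI
      set t := (exists_top h c).choose I with htdef
      rw [T_apply, T_apply]
      have hyI := mem_simplex.1 (hy I hI).1
      have hs : ∀ i, y I i ≠ 0 → M i = M t := by
        intro i h0
        have hiI : i ∈ I := by
          by_contra hi
          exact h0 (hyI.2.2 i hi)
        apply Mc_same h hI hiI ht.1 _ ht.2
        rw [← sub_Mc hI hiI]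
        exact (hy I hI).2 i hiI h0
      by_cases hK : M t = K.1
      · have e1 : ∑ i ∈ univ.filter (fun i => M i = K.1), y I i = 1 := by
          rw [← hyI.2.1]
          apply sum_subset (subset_univ _)
          intro i _ hi
          by_contra h0
          apply hi
          rw [mem_filter]
          exact ⟨mem_univ i, (hs i h0).trans hK⟩
        rw [e1, sum_eq_single t]
        · simp
        · intro b _ hb
          exact Pi.single_eq_of_ne hb _
        · intro h
          exfalso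
          apply h
          rw [mem_filter]
          exact ⟨mem_univ _, hK⟩
      · rw [sum_eq_zero, sum_eq_zero]
        · intro i hi
          rw [mem_filter] at hi
          apply Pi.single_eq_of_ne
          rintro rfl
          exact hK hi.2
        · intro i hi
          rw [mem_filter] at hi
          by_contra h0
          exact hK ((hs i h0).symm.trans hi.2)
    rintro _ ⟨x, hx, y, hy, rfl⟩
    simp only [vsub_eq_sub, SetLike.mem_coe, LinearMap.mem_ker, map_sub]
    rw [key x hx, key y hy, sub_self]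
  · intro v hv
    have hdiff : ∀ i j, M i = M j →
        (Pi.single i 1 : Fin m → ℝ) - Pi.single j 1 ∈ vectorSpan ℝ (psi B M) := by
      intro i j hij
      have h1 := Mc_mem h (Subset.rfl) c (mem_univ i)
      have h2 := Mc_mem h (Subset.rfl) c (mem_univ j)
      have h3 : j ∈ Mc B univ c i := by
        have : Mc B univ c i = Mc B univ c j := hij
        rw [this]; exact h2.1
      have hmaxi : ∀ l ∈ Mc B univ c i, c l ≤ c i := (sub_Mc h1.2.1 h1.1 c).1 Subset.rfl
      have hmaxj : ∀ l ∈ Mc B univ c i, c l ≤ c j := by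
        apply (sub_Mc h1.2.1 h3 c).1
        have : Mc B univ c i = Mc B univ c j := hij
        rw [this]
      obtain ⟨z, _, hz⟩ := point_mem h c
      obtain ⟨z', y, hy, hy2, hy3, hy4, hy5⟩ := hz (Mc B univ c i) h1.2.1 i h1.1 hmaxi
      have h6 := hy5 j h3 hmaxj
      rw [face_eq_psi h] at hy4 h6
      have h7 := vsub_mem_vectorSpan ℝ hy4 h6
      simpa using h7
    have hr : ∀ K : Finset (Fin m), ∃ r : Fin m, (∃ i, M i = K) → M r = K := by
      intro K
      by_cases hK : ∃ i, M i = K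
      · obtain ⟨i, hi⟩ := hK
        exact ⟨i, fun _ => hi⟩
      · exact ⟨Classical.arbitrary (Fin m), fun h => absurd h hK⟩
    choose r hr using hr
    have e1 : v = ∑ i, v i • ((Pi.single i 1 : Fin m → ℝ) - Pi.single (r (M i)) 1) := by
      funext j
      rw [Finset.sum_apply]
      simp only [Pi.smul_apply, Pi.sub_apply, smul_eq_mul, mul_sub, sum_sub_distrib]
      have e2 : ∑ i, v i * (Pi.single i 1 : Fin m → ℝ) j = v j := by
        rw [sum_eq_single j]
        · simp
        · intro b _ hb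
          rw [Pi.single_eq_of_ne (Ne.symm hb), mul_zero]
        · intro h; exact absurd (mem_univ j) h
      have e3 : ∑ i, v i * (Pi.single (r (M i)) 1 : Fin m → ℝ) j = 0 := by
        by_cases hj : r (M j) = j
        · have hv2 : T M v ⟨M j, mem_image_of_mem _ (mem_univ j)⟩ = 0 := by
            rw [LinearMap.mem_ker] at hv
            rw [hv]; rfl
          rw [T_apply, sum_filter] at hv2
          rw [← hv2]
          apply sum_congr rfl
          intro i _
          simp only
          split_ifs with h1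
          · rw [h1, hj]; simp
          · rw [Pi.single_eq_of_ne, mul_zero]
            intro h2
            apply h1
            rw [h2]
            exact (hr (M i) ⟨i, rfl⟩).symm
        · apply sum_eq_zero
          intro i _
          rw [Pi.single_eq_of_ne, mul_zero]
          intro h2
          apply hj
          have : M j = M i := by
            rw [h2]
            exact hr (M i) ⟨i, rfl⟩
          rw [this]
          exact h2.symm
      rw [e2, e3, sub_zero]
    rw [e1]
    apply Submodule.sum_mem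
    intro i _
    apply Submodule.smul_mem
    apply hdiff
    exact (hr (M i) ⟨i, rfl⟩).symm

lemma exposed_iff (h : IsB univ B) (Q : Set (Fin m → ℝ)) :
    (Q.Nonempty ∧ IsExposed ℝ (nestohedron B) Q) ↔ ∃ M ∈ Phi B univ, psi B M = Q := by
  constructor
  · rintro ⟨h1, h2⟩
    obtain ⟨l, hl⟩ := h2 h1
    have e : ∀ x, l x = dot (fun i => l (Pi.single i 1)) x := by
      intro x
      have h3 := LinearMap.pi_apply_eq_sum_univ (l : (Fin m → ℝ) →ₗ[ℝ] ℝ) x
      have h4 : l x = ∑ i, x i • l (fun j => if i = j then 1 else 0) := h3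
      rw [h4]
      unfold dot
      apply sum_congr rfl
      intro i _
      rw [smul_eq_mul, mul_comm]
      congr 2
      funext j
      rw [Pi.single_apply]
      simp only [eq_comm]
    refine ⟨Mc B univ (fun i => l (Pi.single i 1)), mem_Phi.2 ⟨_, rfl⟩, ?_⟩
    rw [← face_eq_psi h, hl]
    ext x
    simp only [face, Set.mem_ofPred_eq, ← e]
  · rintro ⟨M, hM, rfl⟩
    obtain ⟨c, rfl⟩ := mem_Phi.1 hM
    refine ⟨psi_nonempty h c, fun _ => ⟨∑ i, c i • ContinuousLinearMap.proj i, ?_⟩⟩
    rw [← face_eq_psi h]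
    have e : ∀ x, (∑ i, c i • ContinuousLinearMap.proj (R := ℝ) (φ := fun _ : Fin m => ℝ) i) x
        = dot c x := by
      intro x
      simp [dot]
    ext x
    simp only [face, Set.mem_ofPred_eq, e]

theorem hPoly_eq {n : ℕ} {B : Finset (Finset (Fin (n + 1)))} (h : IsB univ B) :
    hPoly n (nestohedron B) = F B univ := by
  have hcard : ∀ M : Fin (n + 1) → Finset (Fin (n + 1)), 1 ≤ (univ.image M).card := by
    intro M
    rw [Nat.one_le_iff_ne_zero, ← Nat.pos_iff_ne_zero, card_pos]
    exact ⟨M 0, mem_image_of_mem _ (mem_univ 0)⟩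
  have hdim : ∀ M ∈ Phi B univ, Module.finrank ℝ (vectorSpan ℝ (psi B M)) =
      (univ : Finset (Fin (n + 1))).card - (univ.image M).card := by
    intro M hM
    obtain ⟨c, rfl⟩ := mem_Phi.1 hM
    rw [vectorSpan_psi h c, card_univ, Fintype.card_fin]
    have := finrank_ker (Mc B univ c)
    omega
  have hnum : ∀ i, faceNum (nestohedron B) i =
      ((Phi B univ).filter (fun M => (univ : Finset (Fin (n + 1))).card -
        (univ.image M).card = i)).card := by
    intro i
    unfold faceNum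
    have e : {Q : Set (Fin (n + 1) → ℝ) | Q.Nonempty ∧ IsExposed ℝ (nestohedron B) Q ∧
        Module.finrank ℝ (vectorSpan ℝ Q) = i} =
        (psi B) '' (((Phi B univ).filter (fun M => (univ : Finset (Fin (n + 1))).card -
        (univ.image M).card = i) : Finset _) : Set (Fin (n + 1) → Finset (Fin (n + 1)))) := by
      ext Q
      simp only [Set.mem_ofPred_eq, Set.mem_image, mem_coe, mem_filter]
      constructor
      · rintro ⟨h1, h2, h3⟩
        obtain ⟨M, hM, rfl⟩ := (exposed_iff h Q).1 ⟨h1, h2⟩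
        rw [hdim M hM] at h3
        exact ⟨M, ⟨hM, h3⟩, rfl⟩
      · rintro ⟨M, ⟨hM, h3⟩, rfl⟩
        obtain ⟨h1, h2⟩ := (exposed_iff h _).2 ⟨M, hM, rfl⟩
        refine ⟨h1, h2, ?_⟩
        rw [hdim M hM]
        exact h3
    rw [e, Set.InjOn.ncard_image, Set.ncard_coe_finset]
    intro M hM N hN hMN
    simp only [mem_coe, mem_filter] at hM hN
    obtain ⟨c, rfl⟩ := mem_Phi.1 hM.1
    obtain ⟨d, rfl⟩ := mem_Phi.1 hN.1
    exact psi_inj h hMN
  unfold hPoly F
  rw [← sum_fiberwise_of_maps_to (s := Phi B univ) (t := range (n + 1))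
    (g := fun M => (univ : Finset (Fin (n + 1))).card - (univ.image M).card)]
  · apply sum_congr rfl
    intro i _
    rw [hnum i]
    rw [sum_congr rfl (g := fun _ => (X - 1 : ℝ[X]) ^ i)]
    · rw [sum_const, nsmul_eq_mul]
      simp
    · intro M hM
      rw [mem_filter] at hM
      rw [hM.2]
  · intro M _
    have := hcard M
    rw [mem_range, card_univ, Fintype.card_fin]
    omega

end Pool.Agent.KS6_69.Nesto
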